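import Pool.Agent.Lib.MP_0bc52e_nt.T7.Stm

/-!
# MP_0bc52e_nt : [TI EXW]
-/

set_option autoImplicit false

namespace Pool.Agent.Lib.MP_0bc52e_nt.LC

private lemma exw_c3 {B : Set (ℝ × ℝ)} (hB : Convex ℝ B) {u v w : ℝ × ℝ} (hu : u ∈ B)
    (hv : v ∈ B) (hw : w ∈ B) {a b c : ℝ} (ha : 0 ≤ a) (hb : 0 ≤ b) (hc : 0 ≤ c)
    (h : a + b + c = 1) : a • u + b • v + c • w ∈ B := by
  have h1 := hB.sum_mem (t := Finset.univ) (w := ![a, b, c]) (z := ![u, v, w])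
    (by intro i _; fin_cases i <;> simpa) (by simpa [Fin.sum_univ_three] using h)
    (by intro i _; fin_cases i <;> simpa)
  simpa [Fin.sum_univ_three] using h1

private lemma exw_main {A B : Set (ℝ × ℝ)} {n : ℕ} {Y Z : ℤ} (hn : 4 ≤ n)
    (hA : ((0 : ℝ), (0 : ℝ)) ∈ A) {b : ℝ × ℝ} (hb : b ∈ B) (hY : (Y : ℝ) = ((n : ℝ) - 1) * b.1)
    (hZ : (Z : ℝ) = ((n : ℝ) - 1) * b.2) : Pt A B (n - 1) (n - 1) Y Z := by
  refine ⟨_, hA, b, hb, ?_, ?_⟩
  · rw [Nat.cast_sub (by omega : 1 ≤ n), hY]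
    simp
  · rw [Nat.cast_sub (by omega : 1 ≤ n), hZ]
    simp

theorem pH_EXW : SH_EXW := by
  intro A B p n y z x₁ y₁ k l hA hB hS hW hp hn hx hρ hAvd
  obtain ⟨hb1, hb2, hb3⟩ := hW
  have hpz : (p : ℤ) = 2 * n + 1 := by
    rw [← hp]
    push_cast
    ring
  have hn4 : 4 ≤ n := by
    by_contra hcon
    have h3 : n = 3 := by omega
    subst h3
    push_cast at hρ
    generalize 3 * y₁ - z - l * (p : ℤ) = t at hρ
    omega
  have hnR : (4 : ℝ) ≤ n := by exact_mod_cast hn4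
  have hdY : (p : ℤ) ∣ ((n : ℤ) - 1) * x₁ - 3 * y := by
    refine ⟨-x₁ + 3 + 3 * k, ?_⟩
    have hy : y = n * (x₁ - 2) - k * p - 1 := by linarith
    rw [hy]
    linear_combination (3 - x₁) * (-hpz)
  rcases hρ with h3 | h3
  · have hdZ : (p : ℤ) ∣ ((n : ℤ) - 1) * y₁ - 3 * z := by
      refine ⟨-y₁ + 3 * l + 1, ?_⟩
      linear_combination h3 + (1 - y₁) * (-hpz)
    refine hAvd (((n : ℤ) - 1) * x₁) (((n : ℤ) - 1) * y₁) hdY hdZ ?_
    have hb : ((x₁ : ℝ), (y₁ : ℝ)) ∈ B := by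
      have h := exw_c3 hB hb1 hb2 hb3 (a := 1 / 3) (b := 1 / 3) (c := 1 / 3) (by norm_num)
        (by norm_num) (by norm_num) (by norm_num)
      have he : (1 / 3 : ℝ) • ip2 (x₁ + 1, y₁ + 0) + (1 / 3 : ℝ) • ip2 (x₁ + 1, y₁ + 1) +
          (1 / 3 : ℝ) • ip2 (x₁ - 1 - 1, y₁ - 0 - 1) = ((x₁ : ℝ), (y₁ : ℝ)) := by
        refine Prod.ext ?_ ?_
        · simp only [ip2, Prod.fst_add, Prod.smul_fst, smul_eq_mul]
          push_cast
          ring
        · simp only [ip2, Prod.snd_add, Prod.smul_snd, smul_eq_mul]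
          push_cast
          ring
      rw [he] at h
      exact h
    refine exw_main hn4 hS.1 hb ?_ ?_
    · push_cast
      rfl
    · push_cast
      rfl
  · have hdZ : (p : ℤ) ∣ (((n : ℤ) - 1) * y₁ - 1) - 3 * z := by
      refine ⟨-y₁ + 3 * l + 1, ?_⟩
      linear_combination h3 + (1 - y₁) * (-hpz)
    refine hAvd (((n : ℤ) - 1) * x₁) (((n : ℤ) - 1) * y₁ - 1) hdY hdZ ?_
    have hn1 : (0 : ℝ) < (n : ℝ) - 1 := by linarith
    set ε : ℝ := 1 / ((n : ℝ) - 1) with hε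
    have hε0 : 0 < ε := by positivity
    have hε1 : ε ≤ 1 / 3 := by
      rw [hε]
      exact one_div_le_one_div_of_le (by norm_num) (by linarith)
    have hb : ((x₁ : ℝ), (y₁ : ℝ) - ε) ∈ B := by
      have h := exw_c3 hB hb1 hb2 hb3 (a := 1 / 3 + ε) (b := 1 / 3 - ε) (c := 1 / 3)
        (by linarith) (by linarith) (by norm_num) (by ring)
      have he : (1 / 3 + ε : ℝ) • ip2 (x₁ + 1, y₁ + 0) + (1 / 3 - ε : ℝ) • ip2 (x₁ + 1, y₁ + 1) +
          (1 / 3 : ℝ) • ip2 (x₁ - 1 - 1, y₁ - 0 - 1) = ((x₁ : ℝ), (y₁ : ℝ) - ε) := by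
        refine Prod.ext ?_ ?_
        · simp only [ip2, Prod.fst_add, Prod.smul_fst, smul_eq_mul]
          push_cast
          ring
        · simp only [ip2, Prod.snd_add, Prod.smul_snd, smul_eq_mul]
          push_cast
          ring
      rw [he] at h
      exact h
    refine exw_main hn4 hS.1 hb ?_ ?_
    · push_cast
      rfl
    · push_cast
      rw [hε]
      field_simp

end Pool.Agent.Lib.MP_0bc52e_nt.LC
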