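import Pool.Agent.Lib.MP_0bc52e_nt.T7.Stm

/-!
# MP_0bc52e_nt, part I: piece EXZ
-/

set_option autoImplicit false

namespace Pool.Agent.Lib.MP_0bc52e_nt.LC

/-- [EXZ] -/
theorem pH_EXZ : SH_EXZ := by
  intro A B p n y z x₁ y₁ k l hA hS hZ hp hn h1 h2 hav
  obtain ⟨-, -, hb, -⟩ := hZ
  obtain ⟨-, ha1, -, ha2⟩ := hS
  have ha : ((1 : ℝ), (1 / 2 : ℝ)) ∈ A := by
    have := hA ha1 ha2 (by norm_num : (0 : ℝ) ≤ 1 / 2) (by norm_num : (0 : ℝ) ≤ 1 / 2) (by norm_num)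
    convert this using 1
    ext <;> norm_num
  obtain ⟨ν, hν⟩ : ∃ ν : ℕ, n = 2 * ν + 1 := by
    have : (n : ℤ) % 2 = 1 := by omega
    exact ⟨n / 2, by omega⟩
  subst hν
  have e : 2 * ν + 1 - 1 = 2 * ν := by omega
  rw [e] at hav
  have hp' : (p : ℤ) = 4 * ν + 3 := by omega
  have hy : y = (2 * (ν : ℤ) + 1) * x₁ - 1 - k * p := by
    push_cast at h1
    linarith
  have hz : z = (2 * (ν : ℤ) + 1) * (y₁ + 1) - l * p - (ν + 1) := by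
    push_cast at h2
    linarith
  refine hav (2 * ν * (x₁ + 2)) (2 * ν * (y₁ + 1) + ν) ⟨-x₁ + 1 + 3 * k, ?_⟩ ⟨3 * l - y₁, ?_⟩
    ⟨_, ha, _, hb, ?_, ?_⟩
  · rw [hy, hp']
    ring
  · rw [hz, hp']
    ring
  · simp only [ip2]
    push_cast
    ring
  · simp only [ip2]
    push_cast
    ring

end Pool.Agent.Lib.MP_0bc52e_nt.LC
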