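import Pool.Agent.Lib.MP_0bc52e_nt.T7.Stm

/-!
# MP_0bc52e_nt : [TI Gd]
-/

set_option autoImplicit false

namespace Pool.Agent.Lib.MP_0bc52e_nt.LC

theorem pH_Gd (h1 : SH_4A) (h2 : SH_4B) : SH_Gd := by
  intro A B p y z hA hB hLA hLB hPB hpp hp hC hAvd
  have h3 := h1 A B p y z hA hB hLA hPB hpp hp hC hAvd
  have h4 := h2 A B p y z hA hB hp hC hAvd
  obtain ⟨hS, ⟨k, q, hq, hk, hb1, hb2, hb3⟩, hy, hz⟩ := hC
  refine ⟨h3, ?_, ?_, ?_, ⟨0, hb1⟩, ⟨k * p, hb2⟩, hz⟩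
  · obtain ⟨V, hV⟩ := hLB
    have hconv : Convex ℝ {v : ℝ × ℝ | -1 ≤ v.2 ∧ v.2 ≤ 1} :=
      (convex_Icc (-1 : ℝ) 1).linear_preimage (LinearMap.snd ℝ ℝ ℝ)
    have hsub : B ⊆ {v : ℝ × ℝ | -1 ≤ v.2 ∧ v.2 ≤ 1} := by
      conv_lhs => rw [hV]
      refine convexHull_min ?_ hconv
      rintro _ ⟨w, hw, rfl⟩
      have hwB : ip2 w ∈ B := by
        rw [hV]
        exact subset_convexHull ℝ _ ⟨w, hw, rfl⟩
      obtain ⟨h5, h6⟩ := h4 _ hwB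
      have h7 : (-2 : ℤ) < w.2 := by
        have : (-2 : ℝ) < (w.2 : ℝ) := h5
        exact_mod_cast this
      have h8 : w.2 < (2 : ℤ) := by
        have : (w.2 : ℝ) < 2 := h6
        exact_mod_cast this
      constructor
      · show (-1 : ℝ) ≤ (w.2 : ℝ)
        exact_mod_cast (by omega : (-1 : ℤ) ≤ w.2)
      · show (w.2 : ℝ) ≤ 1
        exact_mod_cast (by omega : w.2 ≤ 1)
    exact fun v hv => hsub hv
  · have := hS.1
    simpa [ip2] using this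
  · have := hS.2.2.1
    simpa [ip2] using this

end Pool.Agent.Lib.MP_0bc52e_nt.LC
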