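import Pool.Agent.Lib.MP_0bc52e_nt.T7.Stm

/-!
# The theorem for polytopes of width one (MP_0bc52e_nt, piece I)
-/

namespace Pool.Agent.Lib.MP_0bc52e_nt.LC

private lemma i_fl_ip (a b c : ℤ) : fl (ip (a, b, c)) = ip (1 - a, b, c) := by
  unfold fl ip
  simp

theorem pH_I (h1 : S_N5) (h2 : SH_I0) (h3 : SI_flm) (h4 : SI_u3a) (h5 : SI_u3b) (h6 : SI_u3c)
    (h7 : SI_slc) : SH_I := by
  intro P p a b c hlp hpc hx hp hp13 hcr
  have hconv : Convex ℝ P := (h7 P hlp hpc hx).2.2.2.2.2.2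
  have hnot := h1 P p a b c hconv hpc hx hp (by omega) hcr
  have hp0 : (0 : ℤ) < p := by exact_mod_cast hp.pos
  have hk0 : 0 ≤ a % p := Int.emod_nonneg _ hp0.ne'
  have hkp : a % p < p := Int.emod_lt_of_pos _ hp0
  obtain ⟨k, hk⟩ := Int.eq_ofNat_of_zero_le hk0
  have hdk : (p : ℤ) ∣ a - k := by
    rw [← hk]; exact Int.dvd_self_sub_emod
  have hk_ne0 : k ≠ 0 := by
    rintro rfl
    apply hnot
    left
    simpa using hdk
  have hk_ne1 : k ≠ 1 := by
    rintro rfl
    apply hnot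
    right
    simpa using hdk
  have hklt : k < p := by
    have : (k : ℤ) < p := by rw [← hk]; exact hkp
    exact_mod_cast this
  obtain ⟨q, hq⟩ := hdk
  by_cases hnm : p - k ≤ k - 1
  · refine h2 P p (k - 1) (p - k) a b c hlp hpc hx hp hp13 hcr (by omega) hnm (by omega) ?_
    refine ⟨1 - a + q, ?_⟩
    rw [Nat.cast_sub hklt.le]
    linear_combination hq
  · obtain ⟨g, hg, hfam, a', b', c', hgo, r1, r2, r3⟩ := h2 (fl '' P) p (p - k) (k - 1) (1 - a) b c
      ((h5 fl h3.1 P).1 hlp) ((h5 fl h3.1 P).2.1 hpc) (by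
        rintro _ ⟨v, hv, rfl⟩
        have h := hx v hv
        unfold fl
        constructor
        · simp only; linarith
        · simp only; linarith) hp hp13
      (h6 fl h3.1 P p a b c (1 - a) b c (i_fl_ip a b c) hcr) (by omega) (by omega) (by omega) (by
        refine ⟨a - 1 - q, ?_⟩
        rw [Nat.cast_sub (by omega : 1 ≤ k)]
        push_cast
        linear_combination -hq)
    refine ⟨g ∘ fl, h4.2.1 fl g h3.1 hg, ?_, a', b', c', ?_, r1, r2, r3⟩
    · obtain ⟨C, s, t, e1, e2, e3, e4⟩ := hfam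
      exact ⟨C, s, t, e1, e2, e3, by rw [Set.image_comp]; exact e4⟩
    · rw [Function.comp_apply, i_fl_ip]
      exact hgo

end Pool.Agent.Lib.MP_0bc52e_nt.LC
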