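import Pool.Agent.Lib.MP_0bc52e_nt.T7.Stm

namespace Pool.Agent.Lib.MP_0bc52e_nt.LC

private theorem i0_lv (a₁ b₁ c₁ d₁ e f e' f' a b c : ℤ) :
    lv a₁ b₁ c₁ d₁ e f e' f' (ip (a, b, c)) =
      ip (a, a₁ * b + b₁ * c + (1 - a) * e + a * e', c₁ * b + d₁ * c + (1 - a) * f + a * f') := by
  unfold lv ip
  push_cast
  rfl

private theorem i0_ip_inj {u v : ℤ × ℤ × ℤ} (h : ip u = ip v) : u = v := by
  unfold ip at h
  simp only [Prod.mk.injEq, Int.cast_inj] at h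
  exact Prod.ext h.1 (Prod.ext h.2.1 h.2.2)

theorem pH_I0 (h1 : SI_slc) (h2 : SI_cavd) (h3 : SI_avdres) (h4 : SH_PL) (h5 : SI_lvm)
    (h6 : SI_toT) (h7 : SI_u3a) (h8 : SI_u3b) (h9 : SI_u3c) (h10 : SI_N7s) (h11 : S_edge) :
    SH_I0 := by
  intro P p m n a b c hlp hpc hlev hp h13 hcrit h1n hnm hmn hdiv
  obtain ⟨hA, hB, hpA, hpB, hcA, hcB, hcP⟩ := h1 P hlp hpc hlev
  have hmnZ : (m : ℤ) + n + 1 = p := by exact_mod_cast hmn
  have hdiv1 : (p : ℤ) ∣ (n : ℤ) - (m + n) * a := by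
    have e : (m : ℤ) + n = p - 1 := by linarith
    rw [e]
    exact hdiv
  have hav := h2 P p a b c hcP hcrit m n (by omega) (by omega) hdiv1
  have hav2 : m = n → Avd (slice P 0) (slice P 1) p (n - 1) (n - 1) (3 * ((m + n) * b))
      (3 * ((m + n) * c)) := by
    intro hmn'
    obtain ⟨N, rfl⟩ : ∃ N, n = N + 1 := ⟨n - 1, by omega⟩
    subst hmn'
    have hN : N + 1 - 1 = N := rfl
    rw [hN]
    obtain ⟨k, hk⟩ := hdiv1
    push_cast at hk hmnZ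
    have hd : (p : ℤ) ∣ (N : ℤ) - (N + N) * a := by
      refine ⟨3 * k - 1 + 2 * a, ?_⟩
      rw [← hmnZ] at hk ⊢
      linear_combination 3 * hk
    have h := h2 P p a b c hcP hcrit N N (by omega) (by omega) hd
    refine h3.1 _ _ p N N _ _ _ _ ?_ ?_ h
    · refine ⟨2 * b, ?_⟩
      push_cast
      rw [← hmnZ]
      ring
    · refine ⟨2 * c, ?_⟩
      push_cast
      rw [← hmnZ]
      ring
  obtain ⟨hn1, a₁, b₁, c₁, d₁, e, f, e', f', hdet, hG⟩ :=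
    h4 (slice P 0) (slice P 1) p m n _ _ hcA hcB hA hB hpA hpB hp h13 h1n hnm hmn hav hav2
  obtain ⟨hU1, hsl⟩ := h5 a₁ b₁ c₁ d₁ e f e' f' hdet
  obtain ⟨hs0, hs1⟩ := hsl P
  rw [← hs0, ← hs1] at hG
  have hlev1 : ∀ v ∈ lv a₁ b₁ c₁ d₁ e f e' f' '' P, 0 ≤ v.1 ∧ v.1 ≤ 1 := by
    rintro _ ⟨v, hv, rfl⟩
    exact hlev v hv
  have hlp1 := (h8 _ hU1 P).1 hlp
  have hpc1 := (h8 _ hU1 P).2.1 hpc
  have hcr1 := h9 _ hU1 P p a b c _ _ _ (i0_lv a₁ b₁ c₁ d₁ e f e' f' a b c) hcrit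
  obtain ⟨κ, hUκ, hTrap, hκ⟩ := h6 _ p _ _ hlp1 hlev1 hG
  have hlp2 := (h8 _ hUκ _).1 hlp1
  have hpc2 := (h8 _ hUκ _).2.1 hpc1
  have hcr2 := h9 _ hUκ _ p _ _ _ _ _ _ (hκ _ _ _) hcr1
  obtain ⟨k, hk⟩ := hdiv1
  have hk' : a = -1 + p * (k + a) := by
    rw [hn1] at hk hmnZ
    push_cast at hk hmnZ
    rw [← hmnZ] at hk ⊢
    linear_combination hk
  have hdA : (p : ℤ) ∣ (1 - a) - 2 := ⟨-(k + a), by linear_combination -hk'⟩
  have hdB : (p : ℤ) ∣ (c₁ * b + d₁ * c + (1 - a) * f + a * f') + a := by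
    obtain ⟨-, -, -, -, -, -, w, hw⟩ := hG
    refine ⟨-w + (c₁ * b + d₁ * c) + f + (k + a) * (f' - f + 1), ?_⟩
    rw [hn1] at hw hmnZ
    push_cast at hw hmnZ
    have hm : (m : ℤ) = p - 2 := by linarith
    rw [hm] at hw
    linear_combination -hw + (f' - f + 1) * hk'
  obtain ⟨g₃, hU3, hkeep, C, s, t, hodd, hpC, hst, him⟩ :=
    h10 _ p _ _ _ hlp2 hpc2 hTrap (by omega) hcr2 hdA hdB
  obtain ⟨a', b', c', habc⟩ := h7.2.2 g₃ hU3 (1 - a)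
    ((c₁ * b + d₁ * c + (1 - a) * f + a * f') + a)
    (a₁ * b + b₁ * c + (1 - a) * e + a * e')
  have ha' : a' = 1 - a := by
    have := (hkeep (ip (1 - a, (c₁ * b + d₁ * c + (1 - a) * f + a * f') + a,
      a₁ * b + b₁ * c + (1 - a) * e + a * e'))).1
    rw [habc] at this
    exact Int.cast_injective (α := ℝ) this
  have hb' : b' = (c₁ * b + d₁ * c + (1 - a) * f + a * f') + a := by
    have := (hkeep (ip (1 - a, (c₁ * b + d₁ * c + (1 - a) * f + a * f') + a,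
      a₁ * b + b₁ * c + (1 - a) * e + a * e'))).2
    rw [habc] at this
    exact Int.cast_injective (α := ℝ) this
  have hcr3 := h9 _ hU3 _ p _ _ _ _ _ _ habc hcr2
  rw [him] at hcr3
  have hdA' : (p : ℤ) ∣ a' - 2 := by rw [ha']; exact hdA
  have hdB' : (p : ℤ) ∣ b' := by rw [hb']; exact hdB
  have hmem : ∀ v, v ∈ ({ip (0, 0, 0), ip (0, 2, C), ip (1, 0, 0), ip (1, 0, 1), ip (1, 1, 0),
      ip (1, 1, 1), ip (0, 1, s), ip (0, 1, t)} : Set (ℝ × ℝ × ℝ)) → v ∈ fam C s t :=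
    fun v hv => subset_convexHull ℝ _ hv
  have hed := h11 (fam C s t) p a' b' c' 2 0 1 0 0 0 (convex_convexHull ℝ _) (by omega) hcr3
    hdA' (by rw [sub_zero]; exact hdB')
    (hmem _ (by simp)) (hmem _ (by simp)) (hmem _ (by simp))
  refine ⟨g₃ ∘ (κ ∘ lv a₁ b₁ c₁ d₁ e f e' f'), h7.2.1 _ _ (h7.2.1 _ _ hU1 hUκ) hU3,
    ⟨C, s, t, hodd, hpC, hst, ?_⟩, a', b', c', ?_, hdA', hdB', ?_⟩
  · rw [Set.image_comp, Set.image_comp]
    exact him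
  · show g₃ (κ (lv a₁ b₁ c₁ d₁ e f e' f' (ip (a, b, c)))) = _
    rw [i0_lv, hκ]
    exact habc
  · have e1 : c' + 0 - (2 * 0 + 1) = c' - 1 := by ring
    rw [e1] at hed
    exact hed

end Pool.Agent.Lib.MP_0bc52e_nt.LC
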