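import Pool.Agent.Lib.MP_0bc52e_nt.T7.Stm

namespace Pool.Agent.Lib.MP_0bc52e_nt.LC

private theorem l4A_W (h4 : SI_WL1) (h5 : SI_avdmap) (h6 : SI_umim) (A B : Set (ℝ × ℝ)) (p : ℕ)
    (y z : ℤ) (hA : Convex ℝ A) (hB : Convex ℝ B) (hPC : PC2 B) (hp : p.Prime) (h13 : 7 ≤ p)
    (hav : Avd A B p (p - 2) 1 y z) (g : ℝ × ℝ → ℝ × ℝ) (hg : IsUM g) (hW : W3 (g '' A)) :
    False := by
  obtain ⟨a, b, c, d, e, f, hdet, hg'⟩ := hg
  have hge : g = umap a b c d e f := funext hg'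
  rw [hge] at hW
  have hav' := h5 A B p (p - 2) 1 y z a b c d e f e f hdet hav
  have hum := h6 a b c d e f hdet
  refine h4 _ _ p (p - 2) 1 _ _ ((hum.2 A).1 hA) ((hum.2 B).1 hB) hW ((hum.2 B).2.2.1 hPC)
    (by omega) le_rfl (by omega) ?_ hav'
  intro h3
  have := (Nat.prime_dvd_prime_iff_eq Nat.prime_three hp).1 h3
  omega

private theorem l4A_pt (A : Set (ℝ × ℝ)) (hA : Convex ℝ A) (m : ℕ) (a' s h r : ℤ) (hm : 2 ≤ m)
    (hr0 : ip2 (0, r) ∈ A) (hr1 : ip2 (1, r) ∈ A) (hh : ip2 (a', h) ∈ A) (h1 : 0 ≤ s - a')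
    (h2 : s - a' ≤ m - 1) : ∃ a ∈ A, (m : ℝ) * a.1 = s ∧ (m : ℝ) * a.2 = h + (m - 1) * r := by
  have hm2 : (2 : ℝ) ≤ m := by exact_mod_cast hm
  have hm1 : (0 : ℝ) < m - 1 := by linarith
  have hm0 : (0 : ℝ) < m := by linarith
  have h1' : (0 : ℝ) ≤ s - a' := by exact_mod_cast h1
  have h2' : (s : ℝ) - a' ≤ m - 1 := by exact_mod_cast h2
  obtain ⟨t, ht⟩ : ∃ t : ℝ, t = (s - a') / (m - 1) := ⟨_, rfl⟩
  have ht0 : 0 ≤ t := by
    rw [ht]
    positivity
  have ht1 : t ≤ 1 := by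
    rw [ht, div_le_one hm1]
    exact h2'
  have htm : t * (m - 1) = s - a' := by
    rw [ht]
    field_simp
  have hP : ((t, (r : ℝ)) : ℝ × ℝ) ∈ A := by
    have := hA hr0 hr1 (sub_nonneg.2 ht1) ht0 (by ring)
    convert this using 1
    ext
    · simp [ip2]
    · simp [ip2]
      ring
  have hm3 : (1 : ℝ) / m ≤ 1 := by
    rw [div_le_one hm0]
    linarith
  have hQ := hA hh hP (a := 1 / m) (b := 1 - 1 / m) (by positivity) (sub_nonneg.2 hm3) (by ring)
  refine ⟨_, hQ, ?_, ?_⟩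
  · simp only [ip2, Prod.fst_add, Prod.smul_fst, smul_eq_mul]
    have : (m : ℝ) * (1 / m * a' + (1 - 1 / m) * t) = a' + t * (m - 1) := by
      field_simp
    rw [this, htm]
    ring
  · simp only [ip2, Prod.snd_add, Prod.smul_snd, smul_eq_mul]
    field_simp

private theorem l4A_end (A B : Set (ℝ × ℝ)) (p : ℕ) (y z : ℤ) (hA : Convex ℝ A) (h13 : 7 ≤ p)
    (hC : Core p A B y z) (hav : Avd A B p (p - 2) 1 y z) (a' h r : ℤ)
    (hhr : (h = 2 ∧ r = 1) ∨ (h = -1 ∧ r = 0)) (ha : a' = 0 ∨ a' = 1) (hh : ip2 (a', h) ∈ A) :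
    False := by
  obtain ⟨hS, ⟨k, q, hkq, hk, -, -, hq⟩, hy, hz⟩ := hC
  have hr0 : ip2 (0, r) ∈ A := by
    rcases hhr with ⟨-, rfl⟩ | ⟨-, rfl⟩
    · simpa [ip2] using hS.2.2.1
    · simpa [ip2] using hS.1
  have hr1 : ip2 (1, r) ∈ A := by
    rcases hhr with ⟨-, rfl⟩ | ⟨-, rfl⟩
    · simpa [ip2] using hS.2.2.2
    · simpa [ip2] using hS.2.1
  have hkodd : Odd k := by
    have h1 : Odd (k * (p : ℤ)) := by
      rw [← hkq]
      exact ⟨q, rfl⟩
    exact (Int.odd_mul.1 h1).1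
  obtain ⟨j, hj⟩ := hkodd
  have key : ∀ c₀ : ℤ, ip2 (c₀, 0) ∈ B → c₀ = q ∨ c₀ = q + 1 → False := by
    intro c₀ hc₀ hc₀'
    set s : ℤ := (j + 1) * p - 1 - c₀ with hs
    have hjp : k * (p : ℤ) = 2 * (j * p) + p := by
      rw [hj]
      ring
    have hs2 : s = j * p + p - 1 - c₀ := by
      rw [hs]
      ring
    have hp13 : (7 : ℤ) ≤ p := by exact_mod_cast h13
    have hmc : ((p - 2 : ℕ) : ℤ) = (p : ℤ) - 2 := by
      rw [Nat.cast_sub (by omega)]
      norm_num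
    obtain ⟨a, haA, e1, e2⟩ := l4A_pt A hA (p - 2) a' s h r (by omega) hr0 hr1 hh (by omega)
      (by rw [hmc]; omega)
    have hmr : ((p - 2 : ℕ) : ℝ) = (p : ℝ) - 2 := by
      rw [Nat.cast_sub (by omega)]
      norm_num
    refine hav ((j + 1) * p - 1) (h + (p - 3) * r) ?_ ?_ ⟨a, haA, ip2 (c₀, 0), hc₀, ?_, ?_⟩
    · obtain ⟨w, hw⟩ := hy
      refine ⟨j + 1 - w, ?_⟩
      linear_combination -hw
    · obtain ⟨w, hw⟩ := hz
      rcases hhr with ⟨rfl, rfl⟩ | ⟨rfl, rfl⟩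
      · refine ⟨1 - w, ?_⟩
        linear_combination -hw
      · refine ⟨-w, ?_⟩
        linear_combination -hw
    · rw [e1, hs]
      simp only [ip2]
      push_cast
      ring
    · rw [e2, hmr]
      simp only [ip2]
      push_cast
      ring
  rcases hq with hq | hq
  · exact key q hq (Or.inl rfl)
  · exact key (q + 1) hq (Or.inr rfl)

theorem pH_4A (h1 : S_row) (h2 : S_row2) (h3 : S_um) (h4 : SI_WL1) (h5 : SI_avdmap)
    (h6 : SI_umim) : SH_4A := by
  intro A B p y z hA hB hLP hPC hp h13 hC hav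
  have hS : S4 A := hC.1
  -- the integer points
  have hint : ∀ x t : ℤ, ip2 (x, t) ∈ A → 0 ≤ t ∧ t ≤ 1 := by
    intro x t hxt
    by_contra hcon
    have hcase : 2 ≤ t ∨ t ≤ -1 := by omega
    rcases hcase with ht | ht
    · obtain ⟨a', ha'⟩ := h1 A hA hS x t ht hxt
      by_cases h01 : a' = 0 ∨ a' = 1
      · exact l4A_end A B p y z hA h13 hC hav a' 2 1 (Or.inl ⟨rfl, rfl⟩) h01 ha'
      · push Not at h01
        obtain ⟨g, hg, hW⟩ := h2 A hA hS a' ha' h01.1 h01.2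
        exact l4A_W h4 h5 h6 A B p y z hA hB hPC hp h13 hav g hg hW
    · -- the reflection
      have hdet : (1 : ℤ) * (-1) - 0 * 0 = 1 ∨ (1 : ℤ) * (-1) - 0 * 0 = -1 := by norm_num
      have hum := h6 1 0 0 (-1) 0 1 hdet
      have hA' := (hum.2 A).1 hA
      have hpt := (hum.2 A).2.2.2
      have hS' : S4 (umap 1 0 0 (-1) 0 1 '' A) := by
        obtain ⟨s1, s2, s3, s4⟩ := hS
        refine ⟨?_, ?_, ?_, ?_⟩
        · have := hpt 0 1 (by simpa [ip2] using s3)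
          simpa [ip2] using this
        · have := hpt 1 1 (by simpa [ip2] using s4)
          simpa [ip2] using this
        · have := hpt 0 0 (by simpa [ip2] using s1)
          simpa [ip2] using this
        · have := hpt 1 0 (by simpa [ip2] using s2)
          simpa [ip2] using this
      have hx := hpt x t hxt
      obtain ⟨a', ha'⟩ := h1 _ hA' hS' _ _ (by omega) hx
      by_cases h01 : a' = 0 ∨ a' = 1
      · have hback : ip2 (a', -1) ∈ A := by
          obtain ⟨v, hv, hv2⟩ := ha'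
          have e1 := congrArg Prod.fst hv2
          have e2 := congrArg Prod.snd hv2
          simp only [umap, ip2] at e1 e2
          push_cast at e1 e2
          convert hv using 1
          ext
          · simp only [ip2]
            linarith
          · simp only [ip2]
            push_cast
            linarith
        exact l4A_end A B p y z hA h13 hC hav a' (-1) 0 (Or.inr ⟨rfl, rfl⟩) h01 hback
      · push Not at h01
        obtain ⟨g, hg, hW⟩ := h2 _ hA' hS' a' ha' h01.1 h01.2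
        rw [← Set.image_comp] at hW
        exact l4A_W h4 h5 h6 A B p y z hA hB hPC hp h13 hav _ (h3.1 _ _ hum.1 hg) hW
  obtain ⟨V, hV⟩ := hLP
  have hconv : Convex ℝ {v : ℝ × ℝ | 0 ≤ v.2 ∧ v.2 ≤ 1} := by
    intro v hv w hw a b ha hb hab
    simp only [Set.mem_ofPred_eq, Prod.snd_add, Prod.smul_snd, smul_eq_mul] at hv hw ⊢
    constructor
    · have := mul_nonneg ha hv.1
      have := mul_nonneg hb hw.1
      linarith
    · have := mul_le_mul_of_nonneg_left hv.2 ha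
      have := mul_le_mul_of_nonneg_left hw.2 hb
      linarith
  have hsub : convexHull ℝ (ip2 '' (V : Set (ℤ × ℤ))) ⊆ {v : ℝ × ℝ | 0 ≤ v.2 ∧ v.2 ≤ 1} := by
    refine convexHull_min ?_ hconv
    rintro _ ⟨w, hw, rfl⟩
    have hwA : ip2 (w.1, w.2) ∈ A := by
      rw [hV]
      exact subset_convexHull ℝ _ ⟨w, hw, rfl⟩
    have := hint w.1 w.2 hwA
    simp only [Set.mem_ofPred_eq, ip2]
    exact ⟨by exact_mod_cast this.1, by exact_mod_cast this.2⟩
  intro v hv
  rw [hV] at hv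
  exact hsub hv

end Pool.Agent.Lib.MP_0bc52e_nt.LC
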