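import Pool.Agent.Lib.MP_0bc52e_nt.T7.Stm

/-!
Piece `[PL]` of MP_0bc52e_nt: the planar theorem.
-/

namespace Pool.Agent.Lib.MP_0bc52e_nt.LC

/-- The hypotheses on a pair pass to the images. -/
private theorem h7pl_step (h8 : SI_avdmap) (h9 : SI_avdres) (A B : Set (ℝ × ℝ)) (p m n : ℕ)
    (y z a b c d e f : ℤ) (hD : a * d - b * c = 1 ∨ a * d - b * c = -1) (hn : 1 ≤ n)
    (hmn : m + n + 1 = p) (hA : Avd A B p m n y z)
    (hA' : m = n → Avd A B p (n - 1) (n - 1) (3 * y) (3 * z)) :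
    Avd (umap a b c d e f '' A) (umap a b c d e f '' B) p m n
        (a * y + b * z + m * e + n * e) (c * y + d * z + m * f + n * f) ∧
      (m = n → Avd (umap a b c d e f '' A) (umap a b c d e f '' B) p (n - 1) (n - 1)
        (3 * (a * y + b * z + m * e + n * e)) (3 * (c * y + d * z + m * f + n * f))) := by
  refine ⟨h8 A B p m n y z a b c d e f e f hD hA, ?_⟩
  intro hm
  have h := h8 A B p (n - 1) (n - 1) (3 * y) (3 * z) a b c d e f e f hD (hA' hm)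
  have hc : ((n - 1 : ℕ) : ℤ) = n - 1 := by
    rw [Nat.cast_sub hn]
    simp
  have hp : (p : ℤ) = 2 * n + 1 := by
    rw [← hmn, hm]
    push_cast
    ring
  rw [hc] at h
  refine h9.1 _ _ _ _ _ _ _ _ _ ⟨2 * e, ?_⟩ ⟨2 * f, ?_⟩ h
  · rw [hp, hm]
    ring
  · rw [hp, hm]
    ring

/-- The map that takes a parallelogram to the unit square. -/
private theorem h7pl_sq (h11 : SI_umim) (B : Set (ℝ × ℝ)) (x₀ y₀ a b c d : ℤ) (hD : a * d - b * c = 1)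
    (h : Zt B x₀ y₀ a b c d) :
    S4 (umap d (-c) (-b) a (-(d * x₀) + c * y₀) (b * x₀ - a * y₀) '' B) := by
  obtain ⟨z1, z2, z3, z4⟩ := h
  have hD' : d * a - (-c) * (-b) = 1 ∨ d * a - (-c) * (-b) = -1 := by
    left
    linarith
  have hm := ((h11 d (-c) (-b) a (-(d * x₀) + c * y₀) (b * x₀ - a * y₀) hD').2 B).2.2.2
  have k1 := hm _ _ z1
  have k2 := hm _ _ z2
  have k3 := hm _ _ z3
  have k4 := hm _ _ z4
  have e1 : ip2 (d * x₀ + -c * y₀ + (-(d * x₀) + c * y₀),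
      -b * x₀ + a * y₀ + (b * x₀ - a * y₀)) = ((0 : ℝ), (0 : ℝ)) := by
    have u1 : d * x₀ + -c * y₀ + (-(d * x₀) + c * y₀) = 0 := by ring
    have u2 : -b * x₀ + a * y₀ + (b * x₀ - a * y₀) = 0 := by ring
    rw [u1, u2]
    simp [ip2]
  have e2 : ip2 (d * (x₀ + a) + -c * (y₀ + b) + (-(d * x₀) + c * y₀),
      -b * (x₀ + a) + a * (y₀ + b) + (b * x₀ - a * y₀)) = ((1 : ℝ), (0 : ℝ)) := by
    have u1 : d * (x₀ + a) + -c * (y₀ + b) + (-(d * x₀) + c * y₀) = 1 := by linear_combination hD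
    have u2 : -b * (x₀ + a) + a * (y₀ + b) + (b * x₀ - a * y₀) = 0 := by ring
    rw [u1, u2]
    simp [ip2]
  have e3 : ip2 (d * (x₀ + c) + -c * (y₀ + d) + (-(d * x₀) + c * y₀),
      -b * (x₀ + c) + a * (y₀ + d) + (b * x₀ - a * y₀)) = ((0 : ℝ), (1 : ℝ)) := by
    have u1 : d * (x₀ + c) + -c * (y₀ + d) + (-(d * x₀) + c * y₀) = 0 := by ring
    have u2 : -b * (x₀ + c) + a * (y₀ + d) + (b * x₀ - a * y₀) = 1 := by linear_combination hD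
    rw [u1, u2]
    simp [ip2]
  have e4 : ip2 (d * (x₀ + a + c) + -c * (y₀ + b + d) + (-(d * x₀) + c * y₀),
      -b * (x₀ + a + c) + a * (y₀ + b + d) + (b * x₀ - a * y₀)) = ((1 : ℝ), (1 : ℝ)) := by
    have u1 : d * (x₀ + a + c) + -c * (y₀ + b + d) + (-(d * x₀) + c * y₀) = 1 := by
      linear_combination hD
    have u2 : -b * (x₀ + a + c) + a * (y₀ + b + d) + (b * x₀ - a * y₀) = 1 := by
      linear_combination hD
    rw [u1, u2]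
    simp [ip2]
  rw [e1] at k1
  rw [e2] at k2
  rw [e3] at k3
  rw [e4] at k4
  exact ⟨k1, k2, k3, k4⟩

/-- [PL] -/
theorem pH_PL (h1 : S_SW) (h2 : S_um) (h3 : SH_ZL) (h4 : SH_WLm) (h5 : SH_WW) (h6 : SI_pcmin)
    (h7 : SH_Gd) (h8 : SI_avdmap) (h9 : SI_avdres) (h10 : SI_upc) (h11 : SI_umim) : SH_PL := by
  intro A B p m n y z hAc hBc hAl hBl hAp hBp hpr hp13 hn hnm hmn hAv hAv'
  obtain ⟨g, ⟨a, b, c, d, e, f, hD, hg⟩, hWS⟩ := h1 A hAc hAp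
  have hge : g = umap a b c d e f := funext fun v => by
    rw [hg v]
    rfl
  subst hge
  obtain ⟨-, himA⟩ := h11 a b c d e f hD
  obtain ⟨hAc1, hAl1, hAp1, -⟩ := himA A
  obtain ⟨hBc1, hBl1, hBp1, -⟩ := himA B
  obtain ⟨s1, s2⟩ := h7pl_step h8 h9 A B p m n y z a b c d e f hD hn hmn hAv hAv'
  have hodd : Odd p := hpr.odd_of_ne_two (by omega)
  rcases hWS with hW | hS
  · exfalso
    rcases Nat.lt_or_ge n m with hlt | hge
    · exact h4 _ _ p m n _ _ (hAc1 hAc) (hBc1 hBc) hW (hBp1 hBp) hpr hp13 hn hlt hmn s1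
    · have hm : m = n := by omega
      have s2' := s2 hm
      obtain ⟨x₀, y₀, a₁, b₁, c₁, d₁, hD1, hZW⟩ := h6 _ (hBc1 hBc) (hBp1 hBp)
      rcases hZW with hZ | hWt
      · have hD2 : d₁ * a₁ - (-c₁) * (-b₁) = 1 ∨ d₁ * a₁ - (-c₁) * (-b₁) = -1 := by
          left
          linarith
        have hS := h7pl_sq h11 _ x₀ y₀ a₁ b₁ c₁ d₁ hD1 hZ
        obtain ⟨-, him2⟩ := h11 d₁ (-c₁) (-b₁) a₁ (-(d₁ * x₀) + c₁ * y₀) (b₁ * x₀ - a₁ * y₀) hD2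
        obtain ⟨r1, r2⟩ := h7pl_step h8 h9 _ _ p m n _ _ d₁ (-c₁) (-b₁) a₁
          (-(d₁ * x₀) + c₁ * y₀) (b₁ * x₀ - a₁ * y₀) hD2 hn hmn s1 s2
        have r1' := h9.2 _ _ _ _ _ _ _ r1
        have r2' := h9.2 _ _ _ _ _ _ _ (r2 hm)
        have hz := h3 _ _ p m n _ _ ((him2 _).1 (hBc1 hBc)) ((him2 _).1 (hAc1 hAc)) hS
          ((him2 _).2.2.1 (hAp1 hAp)) hpr hp13 hn hnm hmn (by
            have e : m = n := hm
            rw [e] at r1' ⊢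
            exact r1') (fun _ => r2')
        have := hz.1
        omega
      · rw [hm] at s1
        exact h5 _ _ p n _ _ x₀ y₀ a₁ b₁ c₁ d₁ (hAc1 hAc) (hBc1 hBc) hW hWt hD1 hpr hp13
          (by omega) s1
  · obtain ⟨hn1, hup⟩ := h3 _ _ p m n _ _ (hAc1 hAc) (hBc1 hBc) hS (hBp1 hBp) hpr hp13 hn hnm
      hmn s1 s2
    refine ⟨hn1, ?_⟩
    apply h10 (Good p) A B m n y z a b c d e f e f hD
    obtain ⟨a₂, b₂, c₂, d₂, e₂, f₂, e₃, f₃, hD2, hCore⟩ := hup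
    refine ⟨a₂, b₂, c₂, d₂, e₂, f₂, e₃, f₃, hD2, ?_⟩
    obtain ⟨-, him2⟩ := h11 a₂ b₂ c₂ d₂ e₂ f₂ hD2
    obtain ⟨-, him3⟩ := h11 a₂ b₂ c₂ d₂ e₃ f₃ hD2
    have hAv2 := h8 _ _ p m n _ _ a₂ b₂ c₂ d₂ e₂ f₂ e₃ f₃ hD2 s1
    have hm2 : m = p - 2 := by omega
    refine h7 _ _ p _ _ ((him2 _).1 (hAc1 hAc)) ((him3 _).1 (hBc1 hBc)) ((him2 _).2.1 (hAl1 hAl))
      ((him3 _).2.1 (hBl1 hBl)) ((him3 _).2.2.1 (hBp1 hBp)) hpr hp13 hCore ?_
    rw [← hm2, ← hn1]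
    exact hAv2

end Pool.Agent.Lib.MP_0bc52e_nt.LC
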