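import Pool.Agent.Lib.MP_0bc52e_nt.T7.Stm
import Pool.Agent.Lib.MP_0bc52e_nt.T.I.SG

namespace Pool.Agent.Lib.MP_0bc52e_nt.LC

theorem pH_SG (h1 : SI_VC) (h2 : SH_SGb) (h3 : SH_SG3) : SH_SG := by
  intro p m n c d x₀ y₀ G F hp hn hnm hmn hF hFG hs
  have hnR : (1 : ℝ) ≤ n := by exact_mod_cast hn
  have hFR : (2 : ℝ) ≤ F := by exact_mod_cast hF
  have hGR : (F : ℝ) + 1 ≤ G := by exact_mod_cast hFG
  have hF0 : (F : ℝ) ≠ 0 := by linarith
  have hn0 : (n : ℝ) ≠ 0 := by linarith
  have hnp : n + 1 ≤ p := by omega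
  have key := sg_core p m n (n * x₀ - c) (n * y₀ - d) F G ((G : ℝ) / F) hp hn hnm hF hFG
    (by field_simp) (by rw [lt_div_iff₀ (by linarith)]; linarith) ?_ ?_
  · obtain ⟨hF2, k, l, k', ⟨ha1, ha2⟩, ⟨hb1, hb2⟩, ⟨hc1, hc2⟩⟩ := key
    refine ⟨hF2, k, l, k', ⟨ha1, ha2⟩, ⟨?_, ?_⟩, ⟨?_, ?_⟩⟩
    · linarith
    · linarith
    · linarith
    · linarith
  · intro hmn' hlt
    subst hmn'
    have hpp : p = 2 * m + 1 := by omega
    rcases hmn rfl with h3m | h5
    · subst h3m
      norm_num at hpp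
      subst hpp
      exact h3 c d x₀ y₀ G F hFG (by push_cast at hlt; linarith) hs
    · obtain ⟨hG2, hG3⟩ := h2 m c d G F x₀ y₀ (by omega) hFG hlt (by
        intro s hs0 hs1
        rw [← hpp]
        exact hs s hs0 hs1)
      have h5' : (5 : ℤ) ≤ m := by exact_mod_cast h5
      nlinarith
  · intro v w hv hvw hw hno
    push_cast at hv hw ⊢
    -- the parameter `s` of the value `t`
    have hpar : ∀ t : ℝ, (n * y₀ - d : ℝ) ≤ t → t ≤ n * y₀ - d + n * F →
        0 ≤ (t - (n * y₀ - d)) / (n * F) ∧ (t - (n * y₀ - d)) / (n * F) ≤ 1 := by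
      intro t ht1 ht2
      constructor
      · exact div_nonneg (by linarith) (by positivity)
      · rw [div_le_one (by positivity)]
        linarith
    have hV : ∀ t : ℝ, v ≤ t → t ≤ w →
        Vf p n c (x₀ + (t - (n * y₀ - d)) / (n * F) * G) := by
      intro t ht1 ht2
      obtain ⟨hs0, hs1⟩ := hpar t (by linarith) (by linarith)
      rcases hs _ hs0 hs1 with h | h
      · exact h
      · exfalso
        obtain ⟨l, hl1, hl2⟩ := h
        have : (n : ℝ) * (y₀ + (t - (n * y₀ - d)) / (n * F) * F) - d = t := by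
          field_simp
          ring
        rw [this] at hl1 hl2
        exact hno t ht1 ht2 l hl1 hl2
    obtain ⟨k, hk1, hk2⟩ := hV v le_rfl hvw
    have := h1 p n c k (x₀ + (v - (n * y₀ - d)) / (n * F) * G)
      (x₀ + (w - (n * y₀ - d)) / (n * F) * G) hnp ?_ hk1 hk2
    · refine ⟨k, ?_, ?_⟩
      · refine lt_of_lt_of_eq hk1 ?_
        field_simp
        ring
      · refine lt_of_eq_of_lt ?_ this.2
        field_simp
        ring
    · intro s hs0 hs1
      have h3 := hV ((1 - s) * v + s * w) (by nlinarith) (by nlinarith)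
      have h4 : (x₀ : ℝ) + ((1 - s) * v + s * w - (n * y₀ - d)) / (n * F) * G =
          (1 - s) * (x₀ + (v - (n * y₀ - d)) / (n * F) * G) +
            s * (x₀ + (w - (n * y₀ - d)) / (n * F) * G) := by
        field_simp
        ring
      rw [← h4]
      exact h3

end Pool.Agent.Lib.MP_0bc52e_nt.LC
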