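import Pool.Agent.Lib.MP_0bc52e_nt.T7.Stm

/-!
# Free segments for `p = 7`, `m = n = 3` (finite check)
-/

namespace Pool.Agent.Lib.MP_0bc52e_nt.LC

/-- `f / D` is outside all corridors (`p = 7`, `n = 3`). -/
private def sg3B (D f : ℤ) : Bool := f % (7 * D) = 0 || 4 * D ≤ f % (7 * D)

private def sg3Chk : Bool :=
  [4, 5, 6, 7].all fun F : ℤ => (List.range 7).all fun f => (List.range 7).all fun h =>
    (List.range 10).any fun D => (0 < D) && (List.range (D + 1)).any fun u =>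
      sg3B D (D * f + u * (3 * (F + 1))) && sg3B D (D * h + u * (3 * F))

private lemma sg3_chk : sg3Chk = true := by decide +kernel

private lemma sg3_blk (c x₀ G : ℤ) (D u : ℤ) (hD : 0 < D) (k : ℤ) (f : ℤ) (hf : 3 * x₀ - c = f + 7 * k)
    (h : sg3B D (D * f + u * (3 * G)) = true) : ¬ Vf 7 3 c (x₀ + (u / D : ℝ) * G) := by
  rintro ⟨k', h1, h2⟩
  have hDR : (0 : ℝ) < D := by exact_mod_cast hD
  have hfR : (3 : ℝ) * x₀ - c = f + 7 * k := by exact_mod_cast hf
  have e : (D : ℝ) * ((3 : ℕ) * ((x₀ : ℝ) + (u / D : ℝ) * G) - c) = (D : ℝ) * f + u * (3 * G) + (7 : ℝ) * D * k := by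
    push_cast
    field_simp
    linear_combination (D : ℝ) * hfR
  have g1 : (D : ℝ) * (k' * (7 : ℕ)) < D * ((3 : ℕ) * ((x₀ : ℝ) + (u / D : ℝ) * G) - c) :=
    mul_lt_mul_of_pos_left h1 hDR
  have g2 : (D : ℝ) * ((3 : ℕ) * ((x₀ : ℝ) + (u / D : ℝ) * G) - c) < D * (k' * (7 : ℕ) + (3 : ℕ) + 1) :=
    mul_lt_mul_of_pos_left h2 hDR
  rw [e] at g1 g2
  push_cast at g1 g2
  have g3 : D * (k' * 7) < D * f + u * (3 * G) + 7 * D * k := by
    have : ((D * (k' * 7) : ℤ) : ℝ) < ((D * f + u * (3 * G) + 7 * D * k : ℤ) : ℝ) := by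
      push_cast
      linarith
    exact_mod_cast this
  have g4 : D * f + u * (3 * G) + 7 * D * k < D * (k' * 7 + 3 + 1) := by
    have : ((D * f + u * (3 * G) + 7 * D * k : ℤ) : ℝ) < ((D * (k' * 7 + 3 + 1) : ℤ) : ℝ) := by
      push_cast
      linarith
    exact_mod_cast this
  have hDZ : (0 : ℤ) < D := hD
  set w : ℤ := D * f + u * (3 * G) with hw
  -- the residue of `w` modulo `7 D` is in `(0, 4 D)`
  have g5 : 0 < w - 7 * D * (k' - k) := by nlinarith
  have g6 : w - 7 * D * (k' - k) < 4 * D := by nlinarith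
  have g7 : w % (7 * D) = w - 7 * D * (k' - k) := by
    have : w = (w - 7 * D * (k' - k)) + (7 * D) * (k' - k) := by ring
    conv_lhs => rw [this]
    rw [Int.add_mul_emod_self_left]
    exact Int.emod_eq_of_lt g5.le (by linarith)
  unfold sg3B at h
  rw [g7] at h
  simp only [Bool.or_eq_true, decide_eq_true_eq] at h
  rcases h with h | h <;> omega

theorem pH_SG3 (h1 : SH_SGb) : SH_SG3 := by
  intro c d x₀ y₀ G F hFG hst hs
  obtain ⟨hG2, hG3⟩ := h1 3 c d G F x₀ y₀ le_rfl hFG (by push_cast; linarith) (by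
    intro s hs0 hs1
    exact hs s hs0 hs1)
  push_cast at hG2 hG3
  have hF : F ∈ ([4, 5, 6, 7] : List ℤ) := by
    simp only [List.mem_cons, List.not_mem_nil, or_false]
    omega
  have hG : G = F + 1 := by
    simp only [List.mem_cons, List.not_mem_nil, or_false] at hF
    omega
  subst hG
  have hc := sg3_chk
  unfold sg3Chk at hc
  have h2 := List.all_eq_true.1 hc F hF
  obtain ⟨f, hf⟩ := Int.eq_ofNat_of_zero_le (Int.emod_nonneg (3 * x₀ - c) (by norm_num : (7 : ℤ) ≠ 0))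
  obtain ⟨h, hh⟩ := Int.eq_ofNat_of_zero_le (Int.emod_nonneg (3 * y₀ - d) (by norm_num : (7 : ℤ) ≠ 0))
  have hf7 : f < 7 := by
    have := Int.emod_lt_of_pos (3 * x₀ - c) (by norm_num : (0 : ℤ) < 7)
    omega
  have hh7 : h < 7 := by
    have := Int.emod_lt_of_pos (3 * y₀ - d) (by norm_num : (0 : ℤ) < 7)
    omega
  have h3 := List.all_eq_true.1 (List.all_eq_true.1 h2 f (List.mem_range.2 hf7)) h (List.mem_range.2 hh7)
  obtain ⟨D, hD, h4⟩ := List.any_eq_true.1 h3
  rw [Bool.and_eq_true, decide_eq_true_eq] at h4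
  obtain ⟨hD0, h5⟩ := h4
  obtain ⟨u, hu, h6⟩ := List.any_eq_true.1 h5
  rw [Bool.and_eq_true] at h6
  have hu' : u ≤ D := by
    have := List.mem_range.1 hu
    omega
  have hDR : (0 : ℝ) < D := by exact_mod_cast hD0
  have huR : (u : ℝ) ≤ D := by exact_mod_cast hu'
  rcases hs (u / D : ℝ) (by positivity) (by rw [div_le_one hDR]; exact huR) with h7 | h7
  · exact sg3_blk c x₀ (F + 1) D u (by exact_mod_cast hD0) ((3 * x₀ - c) / 7) f (by omega) h6.1
      (by simpa using h7)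
  · exact sg3_blk d y₀ F D u (by exact_mod_cast hD0) ((3 * y₀ - d) / 7) h (by omega) h6.2
      (by simpa using h7)

end Pool.Agent.Lib.MP_0bc52e_nt.LC
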