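import Pool.Agent.Lib.MP_0bc52e_nt.T7.Stm

/-!
# Piece WID: hollow polytopes that contain a polytope of width one meeting all classes
-/

namespace Pool.Agent.Lib.MP_0bc52e_nt.LC

private lemma wid_lev (V : Finset (ℤ × ℤ × ℤ)) (hV : ∀ v ∈ V, 0 ≤ v.1 ∧ v.1 ≤ 1) :
    ∀ v ∈ convexHull ℝ (ip '' (V : Set (ℤ × ℤ × ℤ))), 0 ≤ v.1 ∧ v.1 ≤ 1 := by
  have hc : Convex ℝ {v : ℝ × ℝ × ℝ | 0 ≤ v.1 ∧ v.1 ≤ 1} := by
    intro v hv w hw a b ha hb hab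
    obtain ⟨v1, v2⟩ := hv
    obtain ⟨w1, w2⟩ := hw
    refine ⟨?_, ?_⟩
    · simp only [Prod.fst_add, Prod.smul_fst, smul_eq_mul]
      positivity
    · simp only [Prod.fst_add, Prod.smul_fst, smul_eq_mul]
      have e1 := mul_le_mul_of_nonneg_left v2 ha
      have e2 := mul_le_mul_of_nonneg_left w2 hb
      linarith
  have hsub : ip '' (V : Set (ℤ × ℤ × ℤ)) ⊆ {v : ℝ × ℝ × ℝ | 0 ≤ v.1 ∧ v.1 ≤ 1} := by
    rintro _ ⟨v, hv, rfl⟩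
    obtain ⟨h1, h2⟩ := hV v hv
    refine ⟨?_, ?_⟩
    · show (0:ℝ) ≤ ((v.1 : ℤ) : ℝ)
      exact_mod_cast h1
    · show ((v.1 : ℤ) : ℝ) ≤ 1
      exact_mod_cast h2
  intro v hv
  exact convexHull_min hsub hc hv

private lemma wid_famc (C s t : ℤ) : ∀ v ∈ fam C s t, 0 ≤ v.1 ∧ v.1 ≤ 1 ∧ 0 ≤ v.2.1 ∧ v.2.1 ≤ 2 - v.1 := by
  have hc : Convex ℝ {v : ℝ × ℝ × ℝ | 0 ≤ v.1 ∧ v.1 ≤ 1 ∧ 0 ≤ v.2.1 ∧ v.2.1 ≤ 2 - v.1} := by
    intro v hv w hw a b ha hb hab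
    obtain ⟨v1, v2, v3, v4⟩ := hv
    obtain ⟨w1, w2, w3, w4⟩ := hw
    have e1 := mul_le_mul_of_nonneg_left v2 ha
    have e2 := mul_le_mul_of_nonneg_left w2 hb
    have e3 := mul_le_mul_of_nonneg_left v4 ha
    have e4 := mul_le_mul_of_nonneg_left w4 hb
    refine ⟨?_, ?_, ?_, ?_⟩
    · simp only [Prod.fst_add, Prod.smul_fst, smul_eq_mul]
      positivity
    · simp only [Prod.fst_add, Prod.smul_fst, smul_eq_mul]
      linarith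
    · simp only [Prod.fst_add, Prod.snd_add, Prod.smul_fst, Prod.smul_snd, smul_eq_mul]
      positivity
    · simp only [Prod.fst_add, Prod.snd_add, Prod.smul_fst, Prod.smul_snd, smul_eq_mul]
      nlinarith
  intro v hv
  refine convexHull_min ?_ hc hv
  rintro w hw
  simp only [Set.mem_insert_iff, Set.mem_singleton_iff] at hw
  rcases hw with rfl | rfl | rfl | rfl | rfl | rfl | rfl | rfl <;> simp [ip] <;> norm_num

private lemma wid_col (C s t r : ℤ) (h : PC3 (fam C s t)) :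
    ∃ d : ℤ, ip (0, 1, d) ∈ fam C s t ∧ (2 : ℤ) ∣ d - r := by
  obtain ⟨x, y, z, hm, hx, hy, hz⟩ := h 0 1 r
  obtain ⟨h1, h2, h3, h4⟩ := wid_famc C s t _ hm
  have e1 : (0:ℝ) ≤ (x : ℝ) := h1
  have e2 : (x : ℝ) ≤ 1 := h2
  have e3 : (0:ℝ) ≤ (y : ℝ) := h3
  have e4 : (y : ℝ) ≤ 2 - (x : ℝ) := h4
  have f1 : 0 ≤ x := by exact_mod_cast e1
  have f2 : x ≤ 1 := by exact_mod_cast e2
  have f3 : 0 ≤ y := by exact_mod_cast e3
  have f4 : y ≤ 2 - x := by exact_mod_cast e4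
  have hx0 : x = 0 := by omega
  have hy1 : y = 1 := by omega
  subst hx0 hy1
  exact ⟨z, hm, hz⟩

private lemma wid_sub (C s t : ℤ) (P : Set (ℝ × ℝ × ℝ)) (h : fam C s t ⊆ P) : Six P C := by
  refine ⟨?_, ?_, ?_, ?_, ?_, ?_⟩ <;>
  · refine h (subset_convexHull ℝ _ ?_)
    simp

theorem pH_WID (h1 : SH_I) (_h2 : SI_u3a) (h3 : SI_u3b) (h4 : SI_u3c) (h5 : SI_u3d) (h6 : SI_u3e)
    (h7 : SI_cres) (h8 : SI_R2) (h9 : SH_cas) (h10 : SH_hit) (h11 : SH_negZ) (h12 : SI_negW)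
    (h13 : S_zeq) (_h14 : S_pair) : SH_WID := by
  intro P p V₀ hp hp13 hLP hcrit hhol hV₀ hPC hlev
  obtain ⟨a, b, c, hcrit⟩ := hcrit
  have hconv : Convex ℝ P := by
    obtain ⟨V, rfl⟩ := hLP
    exact convex_convexHull ℝ _
  set P₀ : Set (ℝ × ℝ × ℝ) := convexHull ℝ (ip '' (V₀ : Set (ℤ × ℤ × ℤ))) with hP₀
  have hsub : P₀ ⊆ P := by
    refine convexHull_min ?_ hconv
    rintro _ ⟨v, hv, rfl⟩
    exact hV₀ v hv
  have hLP₀ : IsLP3 P₀ := ⟨V₀, rfl⟩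
  have hl₀ : ∀ v ∈ P₀, 0 ≤ v.1 ∧ v.1 ≤ 1 :=
    wid_lev V₀ (fun v hv => by rcases hlev v hv with h | h <;> omega)
  have hc₀ : Crit3 P₀ p a b c :=
    h7 P P₀ p a b c a b c hsub (by simp) (by simp) (by simp) hcrit
  obtain ⟨g, hg, ⟨C, s, t, hCodd, hpC, -, hfam⟩, a', b', c', hgo, ha', hb', hc'⟩ :=
    h1 P₀ p a b c hLP₀ hPC hl₀ hp hp13 hc₀
  have hLP' : IsLP3 (g '' P) := (h3 g hg P).1 hLP
  have hconv' : Convex ℝ (g '' P) := (h3 g hg P).2.2 hconv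
  have hPCf : PC3 (fam C s t) := by rw [← hfam]; exact (h3 g hg P₀).2.1 hPC
  have hfsub : fam C s t ⊆ g '' P := by rw [← hfam]; exact Set.image_mono hsub
  have hPC' : PC3 (g '' P) := by
    intro x y z
    obtain ⟨x', y', z', hm, hh⟩ := hPCf x y z
    exact ⟨x', y', z', hfsub hm, hh⟩
  have hcrit' : Crit3 (g '' P) p a' b' c' := h4 g hg P p a b c a' b' c' hgo hcrit
  have hhol' : Hollow (g '' P) := h6 g hg P hhol
  have hsix : Six (g '' P) C := wid_sub C s t _ hfsub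
  have hC0 : C ≠ 0 := by
    rintro rfl
    exact absurd hCodd (by decide)
  have hCabs : (7 : ℤ) ≤ |C| := by
    have := Int.le_of_dvd (abs_pos.2 hC0) ((dvd_abs _ _).2 hpC)
    have h13' : (7 : ℤ) ≤ p := by exact_mod_cast hp13
    exact h13'.trans this
  obtain ⟨s₀, hs₀⟩ := hCodd
  have hs₀' : 3 ≤ s₀ ∨ s₀ ≤ -4 := by
    rcases abs_cases C with ⟨h, _⟩ | ⟨h, _⟩ <;> omega
  -- the column over `(0, 1)`
  have hcol : (ip (0, 1, s₀) ∈ g '' P ∧ ip (0, 1, s₀ + 1) ∈ g '' P) ∨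
      ∃ e : ℤ, ip (0, 1, e) ∈ g '' P ∧ 3 ≤ |2 * e - C| := by
    by_contra hno
    rw [not_or] at hno
    obtain ⟨hno1, hno2⟩ := hno
    have hall : ∀ e : ℤ, ip (0, 1, e) ∈ g '' P → e = s₀ ∨ e = s₀ + 1 := by
      intro e he
      by_contra hne
      refine hno2 ⟨e, he, ?_⟩
      rcases abs_cases (2 * e - C) with ⟨h, _⟩ | ⟨h, _⟩ <;> omega
    obtain ⟨d₁, hd₁, hd₁'⟩ := wid_col C s t 0 hPCf
    obtain ⟨d₂, hd₂, hd₂'⟩ := wid_col C s t 1 hPCf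
    have k1 := hall d₁ (hfsub hd₁)
    have k2 := hall d₂ (hfsub hd₂)
    apply hno1
    rcases k1 with k1 | k1 <;> rcases k2 with k2 | k2
    · omega
    · exact ⟨k1 ▸ hfsub hd₁, k2 ▸ hfsub hd₂⟩
    · exact ⟨k2 ▸ hfsub hd₂, k1 ▸ hfsub hd₁⟩
    · omega
  have hge : ∀ x y z : ℤ, ip (x, y, z) ∈ g '' P → 0 ≤ x := by
    intro x y z hm
    by_contra hx
    have hx' : x ≤ -1 := by omega
    rcases hcol with ⟨q1, q2⟩ | ⟨e, he, he'⟩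
    · exact h11 (g '' P) s₀ x y z hconv' (hs₀ ▸ hsix) hs₀' q1 q2 hx' hm hhol'
    · exact h12 (g '' P) C e x y z hconv' hsix he he' hx' hm hhol'
  have hle : ∀ x y z : ℤ, ip (x, y, z) ∈ g '' P → x ≤ 1 := by
    intro x y z hm
    by_contra hx
    have hx' : 2 ≤ x := by omega
    obtain ⟨y', z', hm'⟩ := h8 (g '' P) x y z hconv' hsix.2.2.1 hsix.2.2.2.1 hsix.2.2.2.2.1
      hsix.2.2.2.2.2 hx' hm
    obtain ⟨α, η, s₁, s₂, Y, Z, r1, r2, r3, r4, r5, r6, r7, r8, r9, r10, r11⟩ :=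
      h9 p C y' z' hp13 hC0 hpC
    exact h10 (g '' P) p a' b' c' C y' z' Y Z α η s₁ s₂ hconv' hcrit' hp13 ha' hb' hc' hsix hm'
      r1 r2 r3 r4 r5 r6 r7 r8 r9 r10 r11
  have hl' : ∀ v ∈ g '' P, 0 ≤ v.1 ∧ v.1 ≤ 1 := by
    obtain ⟨V', hV'⟩ := hLP'
    rw [hV']
    apply wid_lev
    rintro ⟨x, y, z⟩ hv
    have hm : ip (x, y, z) ∈ g '' P := by
      rw [hV']
      exact subset_convexHull ℝ _ ⟨_, hv, rfl⟩
    exact ⟨hge x y z hm, hle x y z hm⟩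
  obtain ⟨g₂, hg₂, ⟨C₂, s₂, t₂, hC₂odd, hpC₂, hst₂, hfam₂⟩, -⟩ :=
    h1 (g '' P) p a' b' c' hLP' hPC' hl' hp hp13 hcrit'
  refine ⟨C₂, s₂, t₂, hC₂odd, hpC₂, hst₂, ?_⟩
  rw [← hfam₂]
  exact h13.2.2 _ _ _ (h5 g hg P) (h5 g₂ hg₂ (g '' P))

end Pool.Agent.Lib.MP_0bc52e_nt.LC
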