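import Pool.Agent.Lib.MP_0bc52e_nt.T7.Stm

/-!
# Triangular obstacles, different multiplicities, `p ≥ 7`
-/

namespace Pool.Agent.Lib.MP_0bc52e_nt.LC

theorem pH_WLm (h0 : SH_cert) (h1 : SI_WL1) (h2 : SI_WL2) : SH_WLm := by
  intro A B p m n y z hA hB hW hPC hp hp7 hn hnm hmn hAvd
  have h3 : ¬ 3 ∣ p := by
    intro h
    have := (Nat.prime_dvd_prime_iff_eq Nat.prime_three hp).1 h
    omega
  have hodd : Odd p := hp.odd_of_ne_two (by omega)
  by_cases h : 2 * p ≤ 3 * m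
  · exact h1 A B p m n y z hA hB hW hPC hmn hn h h3 hAvd
  · obtain ⟨k, hk⟩ := hodd
    by_cases hn4 : 4 ≤ n
    · refine h2 A B p m n y z hA hB hW hPC ?_ ⟨k, hk⟩ h3 hAvd
      refine ⟨hmn, ?_, ?_, ?_⟩ <;> omega
    · refine h0 A B p m n y z hA hB hW hPC ?_ hAvd
      have hp9 : p ≠ 9 := by
        rintro rfl
        norm_num at hp
      omega

end Pool.Agent.Lib.MP_0bc52e_nt.LC
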