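import Pool.Agent.Lib.MP_0bc52e_nt.T7.Stm
import Pool.Agent.Lib.MP_0bc52e_nt.T.I.WW

/-!
# Two triangles, equal multiplicities, `p ≥ 7`
-/

namespace Pool.Agent.Lib.MP_0bc52e_nt.LC

theorem pH_WW (h1 : SI_WW4) (h2 : SH_plane1) : SH_WW := by
  intro A B p n y z x₀ y₀ a b c d hA hB hW hWt hdet hp hp7 hnp hav
  obtain ⟨v₁, v₂, hv⟩ := h1 A B x₀ y₀ a b c d hA hB hW hWt hdet
  have hn : 2 * (n : ℤ) + 1 = p := by exact_mod_cast hnp
  refine h2 (ww_F A B v₁ v₂) p (-y - (n + 1) * v₁) (-z - (n + 1) * v₂)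
    (ww_convex A B v₁ v₂ hA hB) ?_ hp (by omega) ?_
  · intro r s
    obtain ⟨X, Y, hX, hY, α, hα, β, hβ, e1, e2⟩ := hv r s
    refine ⟨X, Y, ⟨α, hα, β, hβ, ?_, ?_⟩, hX, hY⟩
    · rw [← e1]
      push_cast
      rfl
    · rw [← e2]
      push_cast
      rfl
  · intro r s q₁ q₂ hq hr hs d1 d2
    exact ww_dil A B v₁ v₂ p n n 1 y z (by simpa using hav) hn hn (p - 1) (by omega) r s q₁ q₂ hq
      hr hs d1 d2

end Pool.Agent.Lib.MP_0bc52e_nt.LC
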