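import Pool.Agent.Lib.MP_0bc52e_nt.T7.Stm

namespace Pool.Agent.Lib.MP_0bc52e_nt.LC

private lemma zfz_seg (B : Set (ℝ × ℝ)) (p n : ℕ) (c d : ℤ) (hB : Convex ℝ B) (hQ : Qc p n c d B)
    (x y x' y' : ℤ) (h1 : ip2 (x, y) ∈ B) (h2 : ip2 (x', y') ∈ B) (s : ℝ) (hs : 0 ≤ s)
    (hs1 : s ≤ 1) :
    Vf p n c ((1 - s) * x + s * x') ∨ Vf p n d ((1 - s) * y + s * y') := by
  have h := hB h1 h2 (by linarith : (0 : ℝ) ≤ 1 - s) hs (by ring)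
  have h3 := hQ _ h
  simpa [ip2] using h3

/-- [ZFZ] The diagonal and two sides of the parallelogram. -/
theorem pH_ZFZ (h1 : SH_SG) (h2 : SI_IN1) (h3 : SI_IN2) (h4 : SI_ZA) : SH_ZFZ := by
  intro B p m n c d x₁ y₁ a₁ b₁ c₁ d₁ hB hQ hp hn hnm hmn hNf hF hZ
  obtain ⟨ha, hb, hc, hd, hdet, hlt⟩ := hNf
  obtain ⟨z1, z2, z3, z4⟩ := hZ
  have hdiag : ∀ s : ℝ, 0 ≤ s → s ≤ 1 → Vf p n c (x₁ + s * ((a₁ + c₁ : ℤ) : ℝ)) ∨
      Vf p n d (y₁ + s * ((b₁ + d₁ : ℤ) : ℝ)) := by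
    intro s hs hs1
    have := zfz_seg B p n c d hB hQ _ _ _ _ z1 z4 s hs hs1
    push_cast at this ⊢
    convert this using 2 <;> ring
  obtain ⟨hF2, k, l, k', ⟨hk1, hk2⟩, ⟨hl1, hl2⟩, ⟨hk1', hk2'⟩⟩ :=
    h1 p m n c d x₁ y₁ (a₁ + c₁) (b₁ + d₁) hp hn hnm hmn hF hlt hdiag
  -- the shape
  have hshape : b₁ = 1 ∧ d₁ = 1 ∧ a₁ = c₁ + 1 := by
    have hb' : b₁ = 0 ∨ b₁ = 1 ∨ b₁ = 2 := by omega
    rcases hb' with h | h | h
    · have : d₁ = 2 := by omega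
      subst h this
      omega
    · have h' : d₁ = 1 := by omega
      subst h h'
      exact ⟨rfl, rfl, by linarith⟩
    · have : d₁ = 0 := by omega
      subst h this
      omega
  obtain ⟨rfl, rfl, rfl⟩ := hshape
  have hq : 1 ≤ c₁ := by omega
  -- the two sides
  have hseg1 : ∀ s : ℝ, 0 ≤ s → s ≤ 1 → Vf p n c (x₁ + s * ((c₁ : ℝ) + 1)) ∨
      Vf p n d (y₁ + s) := by
    intro s hs hs1
    have := zfz_seg B p n c d hB hQ _ _ _ _ z1 z2 s hs hs1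
    push_cast at this
    convert this using 2 <;> ring
  have e1 := h2 p m n c d x₁ y₁ k l ((c₁ : ℝ) + 1) hp hn hnm hseg1 hk1 hk2 hl1 hl2
  have hseg2 : ∀ s : ℝ, 0 ≤ s → s ≤ 1 →
      Vf p n c (((x₁ + (c₁ + 1 + c₁) : ℤ) : ℝ) - s * ((c₁ : ℝ) + 1)) ∨
      Vf p n d (((y₁ + 2 : ℤ) : ℝ) - s) := by
    intro s hs hs1
    have := zfz_seg B p n c d hB hQ _ _ _ _ z4 z3 s hs hs1
    push_cast at this ⊢
    convert this using 2 <;> ring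
  have e2 := h3 p m n c d (x₁ + (c₁ + 1 + c₁)) (y₁ + 2) k' l ((c₁ : ℝ) + 1) hp hn hnm hseg2 hk1' hk2'
    (by have : y₁ + 2 - 1 = y₁ + 1 := by ring
        rw [this]; exact hl1)
    (by have : y₁ + 2 - 1 = y₁ + 1 := by ring
        rw [this]; exact hl2)
  rw [show y₁ + 2 - 1 = y₁ + 1 by ring] at e2
  have e1' : (c₁ + 1) * ((n : ℤ) - (n * (y₁ + 1) - d - l * p)) < n + 1 - (n * x₁ - c - k * p) := by
    exact_mod_cast e1
  have e2' : (c₁ + 1) * ((n * (y₁ + 1) - d - l * p) - 1) < (n * (x₁ + (c₁ + 1 + c₁)) - c - k' * p) := by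
    exact_mod_cast e2
  have hx : x₁ + (c₁ + 1 + c₁) = x₁ + (2 * c₁ + 1) := by ring
  rw [hx] at hk1' hk2' e2'
  have h5 := h4 m n p c₁ (n * x₁ - c - k * p) (n * (y₁ + 1) - d - l * p)
    (n * (x₁ + (2 * c₁ + 1)) - c - k' * p) (k' - k) (by exact_mod_cast hp) (by exact_mod_cast hn)
    (by exact_mod_cast hnm) hq (by linarith) (by linarith) (by linarith) (by linarith)
    (by linarith) (by linarith) e1' e2' (by ring)
  refine ⟨c₁, k, l, k', hq, ⟨z1, z2, z3, z4⟩, ⟨hk1, hk2⟩, ⟨hl1, hl2⟩, ⟨hk1', hk2'⟩, ?_⟩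
  rcases h5 with h5 | ⟨h5, h6, h7, h8, h9⟩
  · left
    exact_mod_cast h5
  · right
    exact ⟨by exact_mod_cast h5, h6, h7, h8, h9⟩

end Pool.Agent.Lib.MP_0bc52e_nt.LC
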