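import Pool.Agent.Lib.MP_0bc52e_nt.T7.Stm

/-!
# Triangular obstacles for `(p; m, n) = (7; 4, 2)` and `(11; 7, 3)` (finite check)
-/

namespace Pool.Agent.Lib.MP_0bc52e_nt.LC

/-- The three inequalities, in units `1/12`. -/
private def certI (m x y : ℤ) : Bool := x + y ≤ 12 * m && -2 * x + y ≤ 12 * m && x - 2 * y ≤ 12 * m

/-- `(X / 12, Y / 12)` is in an obstacle. -/
private def certB (p m X Y : ℤ) : Bool :=
  certI m (X % (12 * p)) (Y % (12 * p)) || certI m (X % (12 * p) - 12 * p) (Y % (12 * p) - 12 * p) ||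
    certI m (X % (12 * p) - 12 * p) (Y % (12 * p)) || certI m (X % (12 * p)) (Y % (12 * p) - 12 * p)

private def certQ (p m n x y c₁ c₂ : ℤ) (u v : ℤ) : Bool :=
  (u - c₁) % 2 != 0 || (v - c₂) % 2 != 0 || 5 < u - v || 5 < v - u ||
    (List.range 13).any fun i => certB p m (12 * x - i * (n * u)) (12 * y - i * (n * v))

private def certC (p m n x y c₁ c₂ : ℤ) : Bool :=
  (List.range 11).all fun u => (List.range 11).all fun v => certQ p m n x y c₁ c₂ (u - 5) (v - 5)

private def certChk (p m n : ℕ) : Bool :=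
  (List.range p).all fun x => (List.range p).all fun y =>
    certB p m (12 * x) (12 * y) || certC p m n x y 1 0 || certC p m n x y 0 1 || certC p m n x y 1 1

private lemma cert_chk7 : certChk 7 4 2 = true := by decide +kernel

private lemma cert_chk11 : certChk 11 7 3 = true := by decide +kernel

private lemma cert_I {p m x y : ℝ} {P M X Y a b K L : ℤ} (hp : p = P) (hm : m = M)
    (hx : 12 * x = X + 12 * p * K) (hy : 12 * y = Y + 12 * p * L)
    (ha : ∃ i : ℤ, a = X - 12 * P * i) (hb : ∃ j : ℤ, b = Y - 12 * P * j)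
    (h : certI M a b = true) : ¬ FR p m x y := by
  obtain ⟨i, rfl⟩ := ha
  obtain ⟨j, rfl⟩ := hb
  intro hF
  unfold certI at h
  simp only [Bool.and_eq_true, decide_eq_true_eq] at h
  obtain ⟨⟨h1, h2⟩, h3⟩ := h
  have h1R : ((X : ℝ) - 12 * P * i) + (Y - 12 * P * j) ≤ 12 * M := by exact_mod_cast h1
  have h2R : -2 * ((X : ℝ) - 12 * P * i) + (Y - 12 * P * j) ≤ 12 * M := by exact_mod_cast h2
  have h3R : ((X : ℝ) - 12 * P * i) - 2 * (Y - 12 * P * j) ≤ 12 * M := by exact_mod_cast h3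
  refine hF (i + K) (j + L) ⟨?_, ?_, ?_⟩
  · push_cast
    rw [hm]
    rw [hp] at hx hy ⊢
    nlinarith
  · push_cast
    rw [hm]
    rw [hp] at hx hy ⊢
    nlinarith
  · push_cast
    rw [hm]
    rw [hp] at hx hy ⊢
    nlinarith

private lemma cert_B {p m x y : ℝ} {P M X Y K L : ℤ} (hp : p = P) (hm : m = M)
    (hx : 12 * x = X + 12 * p * K) (hy : 12 * y = Y + 12 * p * L) (h : certB P M X Y = true) :
    ¬ FR p m x y := by
  have eX : ∃ i : ℤ, X % (12 * P) = X - 12 * P * i := ⟨X / (12 * P), by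
    have := Int.emod_add_mul_ediv X (12 * P)
    linarith⟩
  have eY : ∃ i : ℤ, Y % (12 * P) = Y - 12 * P * i := ⟨Y / (12 * P), by
    have := Int.emod_add_mul_ediv Y (12 * P)
    linarith⟩
  have eX' : ∃ i : ℤ, X % (12 * P) - 12 * P = X - 12 * P * i := by
    obtain ⟨i, hi⟩ := eX
    exact ⟨i + 1, by rw [hi]; ring⟩
  have eY' : ∃ i : ℤ, Y % (12 * P) - 12 * P = Y - 12 * P * i := by
    obtain ⟨i, hi⟩ := eY
    exact ⟨i + 1, by rw [hi]; ring⟩
  unfold certB at h
  simp only [Bool.or_eq_true] at h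
  rcases h with ((h | h) | h) | h
  · exact cert_I hp hm hx hy eX eY h
  · exact cert_I hp hm hx hy eX' eY' h
  · exact cert_I hp hm hx hy eX' eY h
  · exact cert_I hp hm hx hy eX eY' h

private lemma cert_int (n : ℕ) (d : ℤ) (w : ℝ) (hw : w = n * d)
    (h : 3 * |w| < 18 * (n : ℝ)) : -5 ≤ d ∧ d ≤ 5 := by
  have h0 : |d| ≤ 5 := by
    by_contra hcon
    have h5 : (6 : ℤ) ≤ |d| := by omega
    have h5' : (6 : ℝ) ≤ |(d : ℝ)| := by exact_mod_cast h5
    have hn0 : (0 : ℝ) ≤ (n : ℝ) := Nat.cast_nonneg n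
    rw [hw, abs_mul, abs_of_nonneg hn0] at h
    have h6 := mul_le_mul_of_nonneg_left h5' hn0
    linarith
  exact abs_le.1 h0

private lemma cert_gen (h1 : SI_fra) (h2 : SI_seg1) (h3 : SI_frsym) (A B : Set (ℝ × ℝ)) (p m n : ℕ)
    (Y Z : ℤ) (hA : Convex ℝ A) (hB : Convex ℝ B) (hW : W3 A) (hPC : PC2 B) (hm0 : 0 < m)
    (hp0 : 0 < p) (hm2 : p ≤ 2 * m) (hm3 : 3 * m ≤ 2 * p) (hbn : 8 * p < 18 * n + 6 * m)
    (hchk : certChk p m n = true) (hAvd : Avd A B p m n Y Z) : False := by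
  have hp0R : (0 : ℝ) < p := by exact_mod_cast hp0
  have hm2R : (p : ℝ) ≤ 2 * m := by exact_mod_cast hm2
  have hm3R : 3 * (m : ℝ) ≤ 2 * p := by exact_mod_cast hm3
  have hbound : 8 * (p : ℝ) - 6 * m < 18 * n := by
    have h8' : 8 * (p : ℝ) < 18 * n + 6 * m := by exact_mod_cast hbn
    linarith
  obtain ⟨x, y, hb, -, -⟩ := hPC 0 0
  have hfree : ∀ u v : ℤ, ip2 (x + u, y + v) ∈ B → ∀ s : ℝ, 0 ≤ s → s ≤ 1 →
      FR p m ((1 - s) * ((Y : ℝ) - n * x) + s * ((Y : ℝ) - n * (x + u)))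
        ((1 - s) * ((Z : ℝ) - n * y) + s * ((Z : ℝ) - n * (y + v))) := by
    intro u v hb' s hs0 hs1
    have hmem : (1 - s) • ip2 (x, y) + s • ip2 (x + u, y + v) ∈ B :=
      hB hb hb' (by linarith) hs0 (by ring)
    have h4 := h1 A B p m n Y Z hA hW hm0 hAvd _ hmem
    have e1 : (Y : ℝ) - n * ((1 - s) • ip2 (x, y) + s • ip2 (x + u, y + v)).1 =
        (1 - s) * ((Y : ℝ) - n * x) + s * ((Y : ℝ) - n * (x + u)) := by
      simp only [ip2, Prod.fst_add, Prod.smul_fst, smul_eq_mul]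
      push_cast
      ring
    have e2 : (Z : ℝ) - n * ((1 - s) • ip2 (x, y) + s • ip2 (x + u, y + v)).2 =
        (1 - s) * ((Z : ℝ) - n * y) + s * ((Z : ℝ) - n * (y + v)) := by
      simp only [ip2, Prod.snd_add, Prod.smul_snd, smul_eq_mul]
      push_cast
      ring
    rw [e1, e2] at h4
    exact h4
  -- the bounds
  have hbd : ∀ u v : ℤ, ip2 (x + u, y + v) ∈ B → (-5 ≤ u ∧ u ≤ 5) ∧ (-5 ≤ v ∧ v ≤ 5) ∧
      (-5 ≤ u - v ∧ u - v ≤ 5) := by
    intro u v hb'
    have hf := hfree u v hb'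
    refine ⟨?_, ?_, ?_⟩
    · have h5 := h2 p m _ _ _ _ hp0R hm2R hm3R hf
      have := cert_int n (-u) _ (by push_cast; ring) (lt_trans h5 hbound)
      omega
    · have h5 := h2 p m _ _ _ _ hp0R hm2R hm3R (fun s hs0 hs1 => (h3 _ _ _ _).2.1.1 (hf s hs0 hs1))
      have := cert_int n (-v) _ (by push_cast; ring) (lt_trans h5 hbound)
      omega
    · have h6 : ∀ s : ℝ, 0 ≤ s → s ≤ 1 →
          FR p m ((1 - s) * (((Z : ℝ) - n * y) - ((Y : ℝ) - n * x)) +
              s * (((Z : ℝ) - n * (y + v)) - ((Y : ℝ) - n * (x + u))))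
            ((1 - s) * (-((Y : ℝ) - n * x)) + s * (-((Y : ℝ) - n * (x + u)))) := by
        intro s hs0 hs1
        have h7 := (h3 _ _ _ _).2.1.1 ((h3 _ _ _ _).2.2.1 (hf s hs0 hs1))
        have e1 : ((1 - s) * ((Z : ℝ) - n * y) + s * ((Z : ℝ) - n * (y + v))) -
            ((1 - s) * ((Y : ℝ) - n * x) + s * ((Y : ℝ) - n * (x + u))) =
            (1 - s) * (((Z : ℝ) - n * y) - ((Y : ℝ) - n * x)) +
              s * (((Z : ℝ) - n * (y + v)) - ((Y : ℝ) - n * (x + u))) := by ring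
        have e2 : -((1 - s) * ((Y : ℝ) - n * x) + s * ((Y : ℝ) - n * (x + u))) =
            (1 - s) * (-((Y : ℝ) - n * x)) + s * (-((Y : ℝ) - n * (x + u))) := by ring
        rw [e1, e2] at h7
        exact h7
      have h5 := h2 p m _ _ _ _ hp0R hm2R hm3R h6
      exact cert_int n (u - v) _ (by push_cast; ring) (lt_trans h5 hbound)
  -- the residues
  have hpZ : (0 : ℤ) < p := by exact_mod_cast hp0
  obtain ⟨a, ha⟩ := Int.eq_ofNat_of_zero_le (Int.emod_nonneg (Y - n * x) hpZ.ne')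
  obtain ⟨b, hbb⟩ := Int.eq_ofNat_of_zero_le (Int.emod_nonneg (Z - n * y) hpZ.ne')
  have ha' : a < p := by
    have := Int.emod_lt_of_pos (Y - n * x) hpZ
    rw [ha] at this
    exact_mod_cast this
  have hb' : b < p := by
    have := Int.emod_lt_of_pos (Z - n * y) hpZ
    rw [hbb] at this
    exact_mod_cast this
  obtain ⟨K, hK⟩ : ∃ K : ℤ, Y - n * x = a + p * K := ⟨(Y - n * x) / p, by
    have := Int.emod_add_mul_ediv (Y - n * x) p
    rw [ha] at this
    linarith⟩
  obtain ⟨L, hL⟩ : ∃ L : ℤ, Z - n * y = b + p * L := ⟨(Z - n * y) / p, by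
    have := Int.emod_add_mul_ediv (Z - n * y) p
    rw [hbb] at this
    linarith⟩
  have hKR : (Y : ℝ) - n * x = a + p * K := by exact_mod_cast hK
  have hLR : (Z : ℝ) - n * y = b + p * L := by exact_mod_cast hL
  unfold certChk at hchk
  have h4 := List.all_eq_true.1 (List.all_eq_true.1 hchk a (List.mem_range.2 ha')) b
    (List.mem_range.2 hb')
  simp only [Bool.or_eq_true] at h4
  have hcls : ∀ c₁ c₂ : ℤ, certC p m n a b c₁ c₂ = true → False := by
    intro c₁ c₂ hc
    obtain ⟨X', Y', hb1, hX, hY⟩ := hPC (x + c₁) (y + c₂)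
    have hb2 : ip2 (x + (X' - x), y + (Y' - y)) ∈ B := by
      have e1 : x + (X' - x) = X' := by ring
      have e2 : y + (Y' - y) = Y' := by ring
      rw [e1, e2]
      exact hb1
    obtain ⟨hu, hv, huv⟩ := hbd _ _ hb2
    have hf := hfree _ _ hb2
    generalize hud : X' - x = u at *
    generalize hvd : Y' - y = v at *
    unfold certC at hc
    have h5 := List.all_eq_true.1 (List.all_eq_true.1 hc (u + 5).toNat (List.mem_range.2 (by omega)))
      (v + 5).toNat (List.mem_range.2 (by omega))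
    have e1 : (((u + 5).toNat : ℕ) : ℤ) - 5 = u := by omega
    have e2 : (((v + 5).toNat : ℕ) : ℤ) - 5 = v := by omega
    rw [e1, e2] at h5
    unfold certQ at h5
    simp only [Bool.or_eq_true, bne_iff_ne, ne_eq, decide_eq_true_eq] at h5
    rcases h5 with (((h5 | h5) | h5) | h5) | h5
    · apply h5
      omega
    · apply h5
      omega
    · omega
    · omega
    · obtain ⟨i, hi, hB'⟩ := List.any_eq_true.1 h5
      have hi13 : i < 13 := List.mem_range.1 hi
      have hiR : (i : ℝ) ≤ 12 := by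
        have : i ≤ 12 := by omega
        exact_mod_cast this
      refine cert_B (p := p) (m := m) (K := K) (L := L) (by simp) (by simp) ?_ ?_ hB'
        (hf (i / 12) (by positivity) (by linarith))
      · push_cast
        linear_combination 12 * hKR
      · push_cast
        linear_combination 12 * hLR
  rcases h4 with ((h4 | h4) | h4) | h4
  · have hb0 : ip2 (x + 0, y + 0) ∈ B := by simpa using hb
    refine cert_B (p := p) (m := m) (K := K) (L := L) (by simp) (by simp) ?_ ?_ h4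
      (hfree 0 0 hb0 0 le_rfl zero_le_one)
    · push_cast
      linear_combination 12 * hKR
    · push_cast
      linear_combination 12 * hLR
  · exact hcls _ _ h4
  · exact hcls _ _ h4
  · exact hcls _ _ h4

theorem pH_cert (h1 : SI_fra) (h2 : SI_seg1) (h3 : SI_frsym) : SH_cert := by
  intro A B p m n y z hA hB hW hPC hcase hAvd
  rcases hcase with ⟨rfl, rfl, rfl⟩ | ⟨rfl, rfl, rfl⟩
  · exact cert_gen h1 h2 h3 A B 7 4 2 y z hA hB hW hPC (by norm_num) (by norm_num) (by norm_num)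
      (by norm_num) (by norm_num) cert_chk7 hAvd
  · exact cert_gen h1 h2 h3 A B 11 7 3 y z hA hB hW hPC (by norm_num) (by norm_num) (by norm_num)
      (by norm_num) (by norm_num) cert_chk11 hAvd

end Pool.Agent.Lib.MP_0bc52e_nt.LC
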