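import Pool.Agent.Lib.MP_0bc52e_nt.T7.Stm

/-!
# Segments and the four cones
-/

namespace Pool.Agent.Lib.MP_0bc52e_nt.LC

/-- A segment of direction `(D, -D')` that avoids the four cones. -/
private theorem h7cross_avoid (μ ν D D' : ℝ) (hD : 1 < D) (hD' : 1 < D')
    (h : ∀ t : ℝ, 0 ≤ t → t ≤ 1 →
      ¬ ((1 < μ + t * D ∧ 1 < ν - t * D') ∨ (1 < μ + t * D ∧ ν - t * D' < 0) ∨
        (μ + t * D < 0 ∧ 1 < ν - t * D') ∨ (μ + t * D < 0 ∧ ν - t * D' < 0))) :
    (0 ≤ μ ∧ μ ≤ 1 ∧ 0 ≤ ν - D' ∧ ν - D' ≤ 1 ∧ D * (ν - 1) ≤ D' * (1 - μ)) ∨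
      (0 ≤ ν ∧ ν ≤ 1 ∧ 0 ≤ μ + D ∧ μ + D ≤ 1 ∧ D' * (-μ) ≤ D * ν) := by
  have h0 := h 0 le_rfl zero_le_one
  have h1 := h 1 zero_le_one le_rfl
  simp only [zero_mul, one_mul, add_zero, sub_zero] at h0 h1
  have hD0 : 0 < D := by linarith
  have hD0' : 0 < D' := by linarith
  by_cases hμ0 : μ < 0
  · -- begins in the horizontal strip
    have hν1 : ν ≤ 1 := by
      by_contra hc
      exact h0 (Or.inr (Or.inr (Or.inl ⟨hμ0, by linarith⟩)))
    have hν0 : 0 ≤ ν := by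
      by_contra hc
      exact h0 (Or.inr (Or.inr (Or.inr ⟨hμ0, by linarith⟩)))
    have hνe : ν - D' < 0 := by linarith
    have hμe1 : μ + D ≤ 1 := by
      by_contra hc
      exact h1 (Or.inr (Or.inl ⟨by linarith, hνe⟩))
    have hμe0 : 0 ≤ μ + D := by
      by_contra hc
      exact h1 (Or.inr (Or.inr (Or.inr ⟨by linarith, hνe⟩)))
    right
    refine ⟨hν0, hν1, hμe0, hμe1, ?_⟩
    by_contra hc
    push Not at hc
    -- a time with `μ + t D < 0` and `ν - t D' < 0`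
    have e : ν / D' < -μ / D := by
      rw [div_lt_div_iff₀ hD0' hD0]
      linarith
    obtain ⟨t, ht1, ht2⟩ := exists_between e
    rw [div_lt_iff₀ hD0'] at ht1
    rw [lt_div_iff₀ hD0] at ht2
    have ht0 : 0 ≤ t := by
      by_contra hneg
      push Not at hneg
      nlinarith
    have htle : t ≤ 1 := by
      by_contra hneg
      push Not at hneg
      nlinarith
    exact h t ht0 htle (Or.inr (Or.inr (Or.inr ⟨by linarith, by linarith⟩)))
  · push Not at hμ0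
    have hμ1 : μ ≤ 1 := by
      by_contra hc
      push Not at hc
      have hν1 : ν ≤ 1 := by
        by_contra hc'
        exact h0 (Or.inl ⟨hc, by linarith⟩)
      exact h1 (Or.inr (Or.inl ⟨by linarith, by linarith⟩))
    have hνe1 : ν - D' ≤ 1 := by
      by_contra hc
      exact h1 (Or.inl ⟨by linarith, by linarith⟩)
    have hνe0 : 0 ≤ ν - D' := by
      by_contra hc
      exact h1 (Or.inr (Or.inl ⟨by linarith, by linarith⟩))
    left
    refine ⟨hμ0, hμ1, hνe0, hνe1, ?_⟩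
    by_contra hc
    push Not at hc
    have e : (1 - μ) / D < (ν - 1) / D' := by
      rw [div_lt_div_iff₀ hD0 hD0']
      linarith
    obtain ⟨t, ht1, ht2⟩ := exists_between e
    rw [div_lt_iff₀ hD0] at ht1
    rw [lt_div_iff₀ hD0'] at ht2
    have ht0 : 0 ≤ t := by
      by_contra hneg
      push Not at hneg
      nlinarith
    have htle : t ≤ 1 := by
      by_contra hneg
      push Not at hneg
      nlinarith
    exact h t ht0 htle (Or.inl ⟨by linarith, by linarith⟩)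

/-- The case `D + D' < D D'`. -/
private theorem h7cross_core (μ ν D D' : ℝ) (hD : 1 < D) (hD' : 1 < D') (hDD : D + D' < D * D') :
    ∃ t : ℝ, 0 ≤ t ∧ t ≤ 1 ∧
      ((1 < μ + t * D ∧ 1 < ν - t * D') ∨ (1 < μ + t * D ∧ ν - t * D' < 0) ∨
        (μ + t * D < 0 ∧ 1 < ν - t * D') ∨ (μ + t * D < 0 ∧ ν - t * D' < 0)) := by
  by_contra hno
  have h := h7cross_avoid μ ν D D' hD hD' (fun t ht0 ht1 hc => hno ⟨t, ht0, ht1, hc⟩)
  rcases h with ⟨a1, a2, a3, a4, a5⟩ | ⟨a1, a2, a3, a4, a5⟩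
  · nlinarith
  · nlinarith

theorem pH_cross : SH_cross := by
  intro μ ν lam s hl1 hs
  rcases hs with ⟨hs, hlam⟩ | ⟨hs, hlam⟩
  · have hss : 0 < s * (s + 1) := by positivity
    have hl0 : 0 < lam := by
      by_contra hc
      push Not at hc
      nlinarith
    have h1 : 1 < lam * s := by
      by_contra hc
      push Not at hc
      have : lam * s * (s + 1) ≤ 1 * (s + 1) := mul_le_mul_of_nonneg_right hc (by linarith)
      nlinarith
    refine h7cross_core μ ν (lam * (s + 1)) (lam * s) (by nlinarith) h1 ?_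
    have h2 : lam * (2 * s + 1) < lam * (lam * (s * (s + 1))) := mul_lt_mul_of_pos_left hlam hl0
    nlinarith
  · have hss : 0 < s * (s + 1) := by nlinarith
    have hl0 : 0 < lam := by
      by_contra hc
      push Not at hc
      nlinarith
    have h1 : 1 < lam * (-s - 1) := by
      by_contra hc
      push Not at hc
      have : lam * (-s - 1) * (-s) ≤ 1 * (-s) := mul_le_mul_of_nonneg_right hc (by linarith)
      nlinarith
    obtain ⟨t, ht0, ht1, h⟩ := h7cross_core ν μ (lam * (-s)) (lam * (-s - 1)) (by nlinarith)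
      h1 (by
        have h2 : lam * (-2 * s - 1) < lam * (lam * (s * (s + 1))) :=
          mul_lt_mul_of_pos_left hlam hl0
        nlinarith)
    have e1 : ν + t * (lam * (-s)) = ν - t * (lam * s) := by ring
    have e2 : μ - t * (lam * (-s - 1)) = μ + t * (lam * (s + 1)) := by ring
    rw [e1, e2] at h
    refine ⟨t, ht0, ht1, ?_⟩
    rcases h with h | h | h | h
    · exact Or.inl ⟨h.2, h.1⟩
    · exact Or.inr (Or.inr (Or.inl ⟨h.2, h.1⟩))
    · exact Or.inr (Or.inl ⟨h.2, h.1⟩)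
    · exact Or.inr (Or.inr (Or.inr ⟨h.2, h.1⟩))

/-- The two parallel segments for `s = 3`. -/
private theorem h7cross3_core (μ ν : ℝ) : ∃ t w : ℝ, 0 ≤ t ∧ t ≤ 1 ∧ (w = 0 ∨ w = 1) ∧
      ((1 < μ - w / 2 + t * 2 ∧ 1 < ν + w / 2 - t * (3 / 2)) ∨
        (1 < μ - w / 2 + t * 2 ∧ ν + w / 2 - t * (3 / 2) < 0) ∨
        (μ - w / 2 + t * 2 < 0 ∧ 1 < ν + w / 2 - t * (3 / 2)) ∨
        (μ - w / 2 + t * 2 < 0 ∧ ν + w / 2 - t * (3 / 2) < 0)) := by
  by_contra hno
  have h := h7cross_avoid μ ν 2 (3 / 2) (by norm_num) (by norm_num) (fun t ht0 ht1 hc =>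
    hno ⟨t, 0, ht0, ht1, Or.inl rfl, by simpa only [zero_div, sub_zero, add_zero] using hc⟩)
  have h' := h7cross_avoid (μ - 1 / 2) (ν + 1 / 2) 2 (3 / 2) (by norm_num) (by norm_num)
    (fun t ht0 ht1 hc => hno ⟨t, 1, ht0, ht1, Or.inr rfl, hc⟩)
  rcases h with ⟨a1, a2, a3, a4, a5⟩ | ⟨a1, a2, a3, a4, a5⟩ <;>
    rcases h' with ⟨b1, b2, b3, b4, b5⟩ | ⟨b1, b2, b3, b4, b5⟩ <;> linarith

theorem pH_cross3 : SH_cross3 := by
  intro μ ν s hs
  rcases hs with rfl | rfl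
  · obtain ⟨t, w, ht0, ht1, hw, h⟩ := h7cross3_core μ ν
    refine ⟨t, w, ht0, ht1, hw, ?_⟩
    have e1 : ((3 : ℝ) + 1) / 2 = 2 := by norm_num
    rw [e1]
    exact h
  · -- exchange the coordinates: `w` becomes `1 - w`
    obtain ⟨t, w, ht0, ht1, hw, h⟩ := h7cross3_core (ν + 1 / 2) (μ - 1 / 2)
    refine ⟨t, 1 - w, ht0, ht1, by rcases hw with rfl | rfl <;> simp, ?_⟩
    have e1 : μ - (1 - w) / 2 + t * ((-4 + 1) / 2) = μ - 1 / 2 + w / 2 - t * (3 / 2) := by ring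
    have e2 : ν + (1 - w) / 2 - t * (-4 / 2) = ν + 1 / 2 - w / 2 + t * 2 := by ring
    rw [e1, e2]
    rcases h with h | h | h | h
    · exact Or.inl ⟨h.2, h.1⟩
    · exact Or.inr (Or.inr (Or.inl ⟨h.2, h.1⟩))
    · exact Or.inr (Or.inl ⟨h.2, h.1⟩)
    · exact Or.inr (Or.inr (Or.inr ⟨h.2, h.1⟩))

end Pool.Agent.Lib.MP_0bc52e_nt.LC
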