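import Pool.Agent.Lib.MP_0bc52e_nt.T7.Stm

namespace Pool.Agent.Lib.MP_0bc52e_nt.LC

/-- The choice of the segment. -/
private theorem h7negZ_key (h3 : SH_cross) (h3' : SH_cross3) (μ ν lam : ℝ) (s₀ x : ℤ)
    (hs : 3 ≤ s₀ ∨ s₀ ≤ -4) (hx : x ≤ -1) (hlam : lam = -x / (-x + 1)) (hl1 : 1 / 2 ≤ lam)
    (hl2 : lam ≤ 1) : ∃ t w : ℝ, 0 ≤ t ∧ t ≤ 1 ∧ (w = 0 ∨ w = 1) ∧
    ((1 < μ - w * lam + t * (lam * (s₀ + 1)) ∧ 1 < ν + w * lam - t * (lam * s₀)) ∨
      (1 < μ - w * lam + t * (lam * (s₀ + 1)) ∧ ν + w * lam - t * (lam * s₀) < 0) ∨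
      (μ - w * lam + t * (lam * (s₀ + 1)) < 0 ∧ 1 < ν + w * lam - t * (lam * s₀)) ∨
      (μ - w * lam + t * (lam * (s₀ + 1)) < 0 ∧ ν + w * lam - t * (lam * s₀) < 0)) := by
  by_cases hc : x = -1 ∧ (s₀ = 3 ∨ s₀ = -4)
  · obtain ⟨rfl, hs3⟩ := hc
    have hl : lam = 1 / 2 := by
      rw [hlam]
      norm_num
    subst hl
    obtain ⟨t, w, ht0, ht1, hw, h⟩ := h3' μ ν s₀ (by
      rcases hs3 with rfl | rfl
      · left; norm_num
      · right; norm_num)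
    refine ⟨t, w, ht0, ht1, hw, ?_⟩
    have e1 : μ - w * (1 / 2) + t * (1 / 2 * ((s₀ : ℝ) + 1)) = μ - w / 2 + t * ((s₀ + 1) / 2) := by
      ring
    have e2 : ν + w * (1 / 2) - t * (1 / 2 * (s₀ : ℝ)) = ν + w / 2 - t * (s₀ / 2) := by ring
    rw [e1, e2]
    exact h
  · have hcond : (1 ≤ (s₀ : ℝ) ∧ 2 * (s₀ : ℝ) + 1 < lam * (s₀ * (s₀ + 1))) ∨
        ((s₀ : ℝ) ≤ -2 ∧ -2 * (s₀ : ℝ) - 1 < lam * (s₀ * (s₀ + 1))) := by
      by_cases hx2 : x ≤ -2
      · have hxR : (x : ℝ) ≤ -2 := by exact_mod_cast hx2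
        have hl3 : 2 / 3 ≤ lam := by
          rw [hlam, div_le_div_iff₀ (by norm_num) (by linarith)]
          linarith
        rcases hs with h | h
        · left
          have hR : (3 : ℝ) ≤ s₀ := by exact_mod_cast h
          refine ⟨by linarith, ?_⟩
          have : 2 / 3 * ((s₀ : ℝ) * (s₀ + 1)) ≤ lam * (s₀ * (s₀ + 1)) :=
            mul_le_mul_of_nonneg_right hl3 (by positivity)
          nlinarith
        · right
          have hR : (s₀ : ℝ) ≤ -4 := by exact_mod_cast h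
          refine ⟨by linarith, ?_⟩
          have : 2 / 3 * ((s₀ : ℝ) * (s₀ + 1)) ≤ lam * (s₀ * (s₀ + 1)) :=
            mul_le_mul_of_nonneg_right hl3 (by nlinarith)
          nlinarith
      · have hx1 : x = -1 := by omega
        have hs4 : 4 ≤ s₀ ∨ s₀ ≤ -5 := by omega
        rcases hs4 with h | h
        · left
          have hR : (4 : ℝ) ≤ s₀ := by exact_mod_cast h
          refine ⟨by linarith, ?_⟩
          have : 1 / 2 * ((s₀ : ℝ) * (s₀ + 1)) ≤ lam * (s₀ * (s₀ + 1)) :=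
            mul_le_mul_of_nonneg_right hl1 (by positivity)
          nlinarith
        · right
          have hR : (s₀ : ℝ) ≤ -5 := by exact_mod_cast h
          refine ⟨by linarith, ?_⟩
          have : 1 / 2 * ((s₀ : ℝ) * (s₀ + 1)) ≤ lam * (s₀ * (s₀ + 1)) :=
            mul_le_mul_of_nonneg_right hl1 (by nlinarith)
          nlinarith
    obtain ⟨t, ht0, ht1, h⟩ := h3 μ ν lam s₀ hl2 hcond
    refine ⟨t, 0, ht0, ht1, Or.inl rfl, ?_⟩
    simpa only [zero_mul, sub_zero, add_zero] using h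

theorem pH_negZ (h1 : SI_int) (h2 : SI_cone) (h3 : SH_cross) (h3' : SH_cross3) : SH_negZ := by
  intro P s₀ x y z hP hsix hs ha hb hx hxyz hol
  obtain ⟨q1, q2, q3, q4, q5, q6⟩ := hsix
  simp only [ip, Int.cast_zero, Int.cast_one, Int.cast_ofNat, Int.cast_add, Int.cast_mul] at q1 q2 q3 q4 q5 q6 ha hb hxyz
  have hxr : (x : ℝ) ≤ -1 := by exact_mod_cast hx
  -- the plane section in the coordinates of the parallelogram
  let G : Set (ℝ × ℝ) := {v | ((0 : ℝ), v.1 + v.2, (s₀ : ℝ) * v.1 + ((s₀ : ℝ) + 1) * v.2) ∈ P}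
  have hGm : ∀ a b : ℝ, (a, b) ∈ G ↔ ((0 : ℝ), a + b, (s₀ : ℝ) * a + ((s₀ : ℝ) + 1) * b) ∈ P :=
    fun a b => Iff.rfl
  have hGc : Convex ℝ G := by
    intro a ha b hb s t hs ht hst
    have h := hP ha hb hs ht hst
    have e : s • ((0 : ℝ), a.1 + a.2, (s₀ : ℝ) * a.1 + ((s₀ : ℝ) + 1) * a.2) +
        t • ((0 : ℝ), b.1 + b.2, (s₀ : ℝ) * b.1 + ((s₀ : ℝ) + 1) * b.2) =
        ((0 : ℝ), (s • a + t • b).1 + (s • a + t • b).2,
          (s₀ : ℝ) * (s • a + t • b).1 + ((s₀ : ℝ) + 1) * (s • a + t • b).2) := by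
      simp only [Prod.smul_mk, Prod.mk_add_mk, smul_eq_mul, Prod.fst_add, Prod.snd_add,
        Prod.smul_fst, Prod.smul_snd, Prod.mk.injEq]
      refine ⟨by ring, by ring, by ring⟩
    rw [e] at h
    exact h
  have hG4 : S4 G := by
    refine ⟨?_, ?_, ?_, ?_⟩
    · rw [hGm]; convert q1 using 3 <;> ring
    · rw [hGm]; convert ha using 3 <;> ring
    · rw [hGm]; convert hb using 3 <;> ring
    · rw [hGm]; convert q2 using 3 <;> ring
  obtain ⟨J, hJ⟩ : ∃ J : ℝ, J = -(x : ℝ) := ⟨_, rfl⟩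
  have hJ1 : 1 ≤ J := by rw [hJ]; linarith
  have hJp : 0 < J + 1 := by linarith
  obtain ⟨lam, hlam⟩ : ∃ lam : ℝ, lam = J / (J + 1) := ⟨_, rfl⟩
  have hl1 : 1 / 2 ≤ lam := by rw [hlam, le_div_iff₀ hJp]; linarith
  have hl2 : lam ≤ 1 := by rw [hlam, div_le_one hJp]; linarith
  obtain ⟨t, w, ht0, ht1, hw, hcone⟩ := h7negZ_key h3 h3'
    (((s₀ : ℝ) + 1) * (y / (J + 1)) - z / (J + 1))
    (z / (J + 1) - s₀ * (y / (J + 1))) lam s₀ x hs hx (by rw [hlam, hJ]) hl1 hl2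
  have hpt : ((0 : ℝ), y / (J + 1) + t * lam, z / (J + 1) + w * lam) ∈ P := by
    have e1 : ((1 : ℝ), t, w) ∈ P := by
      rcases hw with rfl | rfl
      · have h := hP q3 q5 (by linarith : (0 : ℝ) ≤ 1 - t) ht0 (by ring)
        convert h using 1
        simp only [Prod.smul_mk, Prod.mk_add_mk, smul_eq_mul, Prod.mk.injEq]
        refine ⟨by ring, by ring, by ring⟩
      · have h := hP q4 q6 (by linarith : (0 : ℝ) ≤ 1 - t) ht0 (by ring)
        convert h using 1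
        simp only [Prod.smul_mk, Prod.mk_add_mk, smul_eq_mul, Prod.mk.injEq]
        refine ⟨by ring, by ring, by ring⟩
    have h := hP hxyz e1 (by positivity : (0 : ℝ) ≤ 1 / (J + 1)) (by positivity : (0 : ℝ) ≤ J / (J + 1))
      (by field_simp; ring)
    convert h using 1
    simp only [Prod.smul_mk, Prod.mk_add_mk, smul_eq_mul, Prod.mk.injEq]
    refine ⟨?_, ?_, ?_⟩
    · have : (x : ℝ) = -J := by rw [hJ]; ring
      rw [this]; ring
    · rw [hlam]; ring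
    · rw [hlam]; ring
  obtain ⟨i, j, ε, hε, hij⟩ := h2 G _ _ hGc hG4 (by
    rw [hGm]
    convert hpt using 3 <;> ring) hcone
  have hs0 : 0 ≤ |(s₀ : ℝ)| := abs_nonneg _
  have hden : 0 < 2 * |(s₀ : ℝ)| + 2 := by linarith
  obtain ⟨δ, hδ⟩ : ∃ δ : ℝ, δ = ε / (2 * |(s₀ : ℝ)| + 2) := ⟨_, rfl⟩
  have hδ0 : 0 < δ := by rw [hδ]; positivity
  have hδe : δ * (2 * |(s₀ : ℝ)| + 2) = ε := by rw [hδ]; field_simp
  have hint := h1 P (1, 0, 0) (x, y, z) ((i : ℝ) + j) (s₀ * i + (s₀ + 1) * j) δ hP q3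
    (by norm_num) hxyz (by show (x : ℝ) < 0; linarith) hδ0 (by
      intro Y Z hY hZ
      have hg : ((((s₀ : ℝ) + 1) * Y - Z), (Z - s₀ * Y)) ∈ G := by
        apply hij
        · have e : ((s₀ : ℝ) + 1) * Y - Z - i =
            ((s₀ : ℝ) + 1) * (Y - (i + j)) - (Z - (s₀ * i + (s₀ + 1) * j)) := by ring
          rw [e]
          calc |((s₀ : ℝ) + 1) * (Y - (i + j)) - (Z - (s₀ * i + (s₀ + 1) * j))|
              ≤ |((s₀ : ℝ) + 1) * (Y - (i + j))| + |Z - (s₀ * i + (s₀ + 1) * j)| := abs_sub _ _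
            _ = |(s₀ : ℝ) + 1| * |Y - (i + j)| + |Z - (s₀ * i + (s₀ + 1) * j)| := by rw [abs_mul]
            _ ≤ (|(s₀ : ℝ)| + 1) * δ + δ := by
                have : |(s₀ : ℝ) + 1| ≤ |(s₀ : ℝ)| + 1 := by
                  calc |(s₀ : ℝ) + 1| ≤ |(s₀ : ℝ)| + |(1 : ℝ)| := abs_add_le _ _
                    _ = |(s₀ : ℝ)| + 1 := by rw [abs_one]
                exact add_le_add (mul_le_mul this hY (abs_nonneg _) (by linarith)) hZ
            _ ≤ ε := by rw [← hδe]; nlinarith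
        · have e : (Z - (s₀ : ℝ) * Y) - j =
            (Z - (s₀ * i + (s₀ + 1) * j)) - (s₀ : ℝ) * (Y - (i + j)) := by ring
          rw [e]
          calc |(Z - (s₀ * i + (s₀ + 1) * j)) - (s₀ : ℝ) * (Y - (i + j))|
              ≤ |Z - (s₀ * i + (s₀ + 1) * j)| + |(s₀ : ℝ) * (Y - (i + j))| := abs_sub _ _
            _ = |Z - (s₀ * i + (s₀ + 1) * j)| + |(s₀ : ℝ)| * |Y - (i + j)| := by rw [abs_mul]
            _ ≤ δ + |(s₀ : ℝ)| * δ := add_le_add hZ (mul_le_mul_of_nonneg_left hY hs0)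
            _ ≤ ε := by rw [← hδe]; nlinarith
      rw [hGm] at hg
      convert hg using 3 <;> ring)
  refine hol 0 (i + j) (s₀ * i + (s₀ + 1) * j) ?_
  simp only [ip, Int.cast_zero, Int.cast_add, Int.cast_mul, Int.cast_one]
  exact hint

end Pool.Agent.Lib.MP_0bc52e_nt.LC
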