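import Pool.Agent.Lib.MP_0bc52e_nt.T7.Stm

/-!
# The plane fact with the dilate `p - 1` only
-/

namespace Pool.Agent.Lib.MP_0bc52e_nt.LC

private lemma h7p_comb3 (G : Set (ℝ × ℝ)) (hG : Convex ℝ G) (A B C : ℝ × ℝ) (hA : A ∈ G) (hB : B ∈ G)
    (hC : C ∈ G) (a b c : ℝ) (ha : 0 ≤ a) (hb : 0 ≤ b) (hc : 0 ≤ c) (habc : a + b + c = 1) :
    a • A + b • B + c • C ∈ G := by
  by_cases h0 : a + b = 0
  · have ha0 : a = 0 := by linarith
    have hb0 : b = 0 := by linarith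
    have hc1 : c = 1 := by linarith
    rw [ha0, hb0, hc1]
    simpa using hC
  · have hpos : 0 < a + b := lt_of_le_of_ne (by linarith) (Ne.symm h0)
    have h1 : (a / (a + b)) • A + (b / (a + b)) • B ∈ G :=
      hG hA hB (by positivity) (by positivity) (by rw [← add_div, div_self h0])
    have h2 := hG h1 hC hpos.le hc habc
    have e : (a + b) • ((a / (a + b)) • A + (b / (a + b)) • B) + c • C = a • A + b • B + c • C := by
      rw [smul_add, smul_smul, smul_smul, mul_div_cancel₀ _ h0, mul_div_cancel₀ _ h0]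
    rwa [e] at h2

private lemma h7p_sq (G : Set (ℝ × ℝ)) (hG : Convex ℝ G) (h4 : S4 G) (s t : ℝ) (hs : 0 ≤ s) (hs1 : s ≤ 1)
    (ht : 0 ≤ t) (ht1 : t ≤ 1) : (s, t) ∈ G := by
  obtain ⟨h00, h10, h01, h11⟩ := h4
  have e1 : (s, (0:ℝ)) ∈ G := by
    have := hG h00 h10 (by linarith : 0 ≤ 1 - s) hs (by ring)
    simpa using this
  have e2 : (s, (1:ℝ)) ∈ G := by
    have := hG h01 h11 (by linarith : 0 ≤ 1 - s) hs (by ring)
    simpa using this
  have := hG e1 e2 (by linarith : 0 ≤ 1 - t) ht (by ring)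
  have e : (1 - t) • (s, (0:ℝ)) + t • (s, (1:ℝ)) = (s, t) := by
    ext
    · simp; ring
    · simp
  rwa [e] at this

private lemma h7p_tri (G : Set (ℝ × ℝ)) (hG : Convex ℝ G) (h3 : W3 G) (x y : ℝ) (h1 : x + y ≤ 1)
    (h2 : y - 2 * x ≤ 1) (h4 : x - 2 * y ≤ 1) : (x, y) ∈ G := by
  obtain ⟨hA, hB, hC⟩ := h3
  have := h7p_comb3 G hG _ _ _ hA hB hC ((1 - (y - 2 * x)) / 3) ((1 - (x - 2 * y)) / 3)
    ((1 - (x + y)) / 3) (by linarith) (by linarith) (by linarith) (by ring)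
  have e : ((1 - (y - 2 * x)) / 3) • ((1:ℝ), (0:ℝ)) + ((1 - (x - 2 * y)) / 3) • ((0:ℝ), (1:ℝ)) +
    ((1 - (x + y)) / 3) • ((-1:ℝ), (-1:ℝ)) = (x, y) := by
    ext
    · simp; ring
    · simp; ring
  rwa [e] at this

/-- The criterion for one dilate is transported by an integer affine map. -/
private lemma h7p_map (F : Set (ℝ × ℝ)) (p h : ℕ) (b c : ℤ) (g : ℝ × ℝ → ℝ × ℝ) (hgU : IsUM g) :
    ∃ b' c' : ℤ,
      (∀ y z : ℤ, ∀ v w : ℝ, (v, w) ∈ F → (y : ℝ) = h * v → (z : ℝ) = h * w →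
        (p : ℤ) ∣ y - h * b → (p : ℤ) ∣ z - h * c → False) →
      ∀ y z : ℤ, ∀ v w : ℝ, (v, w) ∈ g '' F → (y : ℝ) = h * v → (z : ℝ) = h * w →
        (p : ℤ) ∣ y - h * b' → (p : ℤ) ∣ z - h * c' → False := by
  obtain ⟨A, B, C, D, E, G, hdet, hg⟩ := hgU
  refine ⟨A * b + B * c + E, C * b + D * c + G, ?_⟩
  rintro hF y' z' v' w' ⟨⟨v, w⟩, hvw, hgv⟩ hy hz hyb hzc
  rw [hg] at hgv
  simp only [Prod.mk.injEq] at hgv
  obtain ⟨hv', hw'⟩ := hgv
  set Δ : ℤ := A * D - B * C with hΔ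
  have hΔ2 : Δ * Δ = 1 := by rcases hdet with h | h <;> rw [h] <;> norm_num
  have hΔ2R : (Δ : ℝ) * Δ = 1 := by exact_mod_cast hΔ2
  have hΔR : (Δ : ℝ) = A * D - B * C := by rw [hΔ]; push_cast; ring
  refine hF (Δ * (D * (y' - h * E) - B * (z' - h * G))) (Δ * (A * (z' - h * G) - C * (y' - h * E))) v w hvw
    ?_ ?_ ?_ ?_
  · push_cast
    rw [hy, hz, ← hv', ← hw']
    have : (Δ : ℝ) * (D * (h * (A * v + B * w + E) - h * E) - B * (h * (C * v + D * w + G) - h * G)) =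
        Δ * (A * D - B * C) * (h * v) := by ring
    rw [this, ← hΔR, hΔ2R, one_mul]
  · push_cast
    rw [hy, hz, ← hv', ← hw']
    have : (Δ : ℝ) * (A * (h * (C * v + D * w + G) - h * G) - C * (h * (A * v + B * w + E) - h * E)) =
        Δ * (A * D - B * C) * (h * w) := by ring
    rw [this, ← hΔR, hΔ2R, one_mul]
  · have : Δ * (D * (y' - h * E) - B * (z' - h * G)) - h * b =
        Δ * (D * (y' - h * (A * b + B * c + E)) - B * (z' - h * (C * b + D * c + G))) := by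
      have e : (h : ℤ) * b = (Δ * Δ) * (h * b) := by rw [hΔ2, one_mul]
      rw [e, hΔ]
      ring
    rw [this]
    exact (dvd_sub (hyb.mul_left D) (hzc.mul_left B)).mul_left Δ
  · have : Δ * (A * (z' - h * G) - C * (y' - h * E)) - h * c =
        Δ * (A * (z' - h * (C * b + D * c + G)) - C * (y' - h * (A * b + B * c + E))) := by
      have e : (h : ℤ) * c = (Δ * Δ) * (h * c) := by rw [hΔ2, one_mul]
      rw [e, hΔ]
      ring
    rw [this]
    exact (dvd_sub (hzc.mul_left A) (hyb.mul_left C)).mul_left Δ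

theorem pH_plane1 (h1 : S_SW) (h2 : SI_Wfull) (h4 : S_umconv) : SH_plane1 := by
  intro F p b c hF hPC hp hp5 hcrit
  obtain ⟨g, hg, hWS⟩ := h1 F hF hPC
  have hconv := (h4 g hg F).1 hF
  obtain ⟨b', c', hcr⟩ := h7p_map F p (p - 1) b c g hg
  have h0 : 0 < p - 1 := by omega
  have hne : ((p - 1 : ℕ) : ℝ) ≠ 0 := by exact_mod_cast h0.ne'
  have hpos : (0:ℝ) < ((p - 1 : ℕ) : ℝ) := by exact_mod_cast h0
  have key : ∀ r s : ℤ, (p : ℤ) ∣ r - (p - 1 : ℕ) * b' → (p : ℤ) ∣ s - (p - 1 : ℕ) * c' →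
      ((r : ℝ) / (p - 1 : ℕ), (s : ℝ) / (p - 1 : ℕ)) ∈ g '' F → False := by
    intro r s d1 d2 hmem
    exact hcr hcrit r s _ _ hmem (by field_simp) (by field_simp) d1 d2
  rcases hWS with hW | hS
  · have h3 : ¬ 3 ∣ p := by
      intro h
      have := (Nat.prime_dvd_prime_iff_eq Nat.prime_three hp).1 h
      omega
    obtain ⟨r, s, d1, d2, i1, i2, i3⟩ := h2 p (by omega) h3 (((p - 1 : ℕ) : ℤ) * b')
      (((p - 1 : ℕ) : ℤ) * c')
    have hc1 : ((p - 1 : ℕ) : ℝ) = (p : ℝ) - 1 := by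
      rw [Nat.cast_sub (by omega)]
      simp
    have j1 : (r : ℝ) + s ≤ p - 1 := by exact_mod_cast i1
    have j2 : -2 * (r : ℝ) + s ≤ p - 1 := by exact_mod_cast i2
    have j3 : (r : ℝ) - 2 * s ≤ p - 1 := by exact_mod_cast i3
    refine key r s d1 d2 (h7p_tri _ hconv hW _ _ ?_ ?_ ?_)
    · rw [← add_div, div_le_one hpos, hc1]; linarith
    · have : (s:ℝ)/(p - 1 : ℕ) - 2 * ((r:ℝ)/(p - 1 : ℕ)) = ((s:ℝ) - 2 * r)/(p - 1 : ℕ) := by ring
      rw [this, div_le_one hpos, hc1]; linarith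
    · have : (r:ℝ)/(p - 1 : ℕ) - 2 * ((s:ℝ)/(p - 1 : ℕ)) = ((r:ℝ) - 2 * s)/(p - 1 : ℕ) := by ring
      rw [this, div_le_one hpos, hc1]; linarith
  · have hp0 : (p : ℤ) ≠ 0 := by
      have : p ≠ 0 := by omega
      exact_mod_cast this
    have hp0' : (0 : ℤ) < p := by omega
    have res : ∀ t : ℤ, ∃ r : ℤ, (p : ℤ) ∣ r - t ∧ 0 ≤ r ∧ r ≤ ((p - 1 : ℕ) : ℤ) := by
      intro t
      refine ⟨t % p, ?_, Int.emod_nonneg _ hp0, ?_⟩
      · have := Int.emod_add_mul_ediv t p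
        exact ⟨-(t / p), by linarith⟩
      · have := Int.emod_lt_of_pos t hp0'
        omega
    obtain ⟨r, d1, hr1, hr2⟩ := res (((p - 1 : ℕ) : ℤ) * b')
    obtain ⟨s, d2, hs1, hs2⟩ := res (((p - 1 : ℕ) : ℤ) * c')
    have hr3 : (0:ℝ) ≤ r := by exact_mod_cast hr1
    have hs3 : (0:ℝ) ≤ s := by exact_mod_cast hs1
    have hr5 : (r:ℝ) ≤ ((p - 1 : ℕ) : ℝ) := by exact_mod_cast hr2
    have hs5 : (s:ℝ) ≤ ((p - 1 : ℕ) : ℝ) := by exact_mod_cast hs2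
    refine key r s d1 d2 (h7p_sq _ hconv hS _ _ ?_ ?_ ?_ ?_)
    · exact div_nonneg hr3 hpos.le
    · rw [div_le_one hpos]; exact hr5
    · exact div_nonneg hs3 hpos.le
    · rw [div_le_one hpos]; exact hs5

end Pool.Agent.Lib.MP_0bc52e_nt.LC
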